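import Mathlib

set_option autoImplicit false

/-!
# Weyl sums with a prime power denominator

Crude bounds for `∑ e(φ y)`, `φ` a real polynomial of degree at most three whose leading
coefficient has a prime power denominator.
-/

namespace Pool.Agent.H34.Rud

open Finset

/-- `e(x) = exp (2 π i x)`. -/
noncomputable def ee (x : ℝ) : ℂ := Complex.exp (Complex.I * ((2 * Real.pi * x : ℝ) : ℂ))

theorem ee_add (x y : ℝ) : ee (x + y) = ee x * ee y := by
  unfold ee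
  rw [← Complex.exp_add]
  congr 1
  push_cast
  ring

theorem ee_zero : ee 0 = 1 := by simp [ee]

theorem ee_int (k : ℤ) : ee k = 1 := by
  unfold ee
  have := Complex.exp_int_mul_two_pi_mul_I k
  rw [← this]
  congr 1
  push_cast
  ring

theorem norm_ee (x : ℝ) : ‖ee x‖ = 1 := by
  unfold ee
  rw [mul_comm, Complex.norm_exp_ofReal_mul_I]

theorem conj_ee (x : ℝ) : (starRingEnd ℂ) (ee x) = ee (-x) := by
  unfold ee
  rw [← Complex.exp_conj]
  congr 1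
  rw [map_mul, Complex.conj_I, Complex.conj_ofReal]
  push_cast
  ring

theorem ee_sub (x y : ℝ) : ee (x - y) = ee x * (starRingEnd ℂ) (ee y) := by
  rw [conj_ee, ← ee_add, sub_eq_add_neg]

theorem norm_ee_sub_one (x : ℝ) : ‖ee x - 1‖ = 2 * |Real.sin (Real.pi * x)| := by
  unfold ee
  rw [Complex.norm_exp_I_mul_ofReal_sub_one]
  rw [show (2 * Real.pi * x) / 2 = Real.pi * x by ring, norm_mul, Real.norm_eq_abs, Real.norm_eq_abs,
    abs_of_pos (by norm_num : (0:ℝ) < 2)]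

/-- The distance from `1` of `e(c/q)`, `q ∤ c`. -/
theorem ee_rat (c : ℤ) (q : ℕ) (hq : 0 < q) (hc : ¬ (q : ℤ) ∣ c) :
    4 / (q : ℝ) ≤ ‖ee ((c : ℝ) / q) - 1‖ := by
  have hq' : (0 : ℝ) < q := by exact_mod_cast hq
  set m := c / (q : ℤ) with hm
  set r := c % (q : ℤ) with hr
  have h1 : (q : ℤ) * m + r = c := Int.mul_ediv_add_emod c q
  have hr0 : 0 ≤ r := Int.emod_nonneg c (by exact_mod_cast hq.ne')
  have hr1 : r < q := Int.emod_lt_of_pos c (by exact_mod_cast hq)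
  have hr2 : r ≠ 0 := fun h => hc (Int.dvd_of_emod_eq_zero h)
  have h2 : (c : ℝ) / q = (r : ℝ) / q + (m : ℤ) := by
    rw [← h1]
    push_cast
    field_simp
    ring
  rw [h2, ee_add, ee_int, mul_one, norm_ee_sub_one]
  have hr3 : (1 : ℝ) ≤ r := by exact_mod_cast (by omega : 1 ≤ r)
  have hr4 : (r : ℝ) ≤ q - 1 := by
    have : r ≤ (q : ℤ) - 1 := by omega
    exact_mod_cast this
  have hpi := Real.pi_pos
  have key : 2 / (q : ℝ) ≤ Real.sin (Real.pi * ((r : ℝ) / q)) := by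
    rcases le_total ((r : ℝ) / q) (1 / 2) with h | h
    · have h3 := Real.mul_le_sin (x := Real.pi * ((r : ℝ) / q)) (by positivity) (by nlinarith)
      refine le_trans ?_ h3
      rw [show 2 / Real.pi * (Real.pi * ((r : ℝ) / q)) = 2 * r / q by field_simp]
      apply div_le_div_of_nonneg_right _ hq'.le
      linarith
    · have h4 : Real.sin (Real.pi * ((r : ℝ) / q)) =
          Real.sin (Real.pi * (1 - (r : ℝ) / q)) := by
        rw [← Real.sin_pi_sub]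
        congr 1
        ring
      have h5 : (r : ℝ) / q ≤ 1 - 1 / q := by
        rw [div_le_iff₀ hq']
        have : (1 - 1 / (q : ℝ)) * q = q - 1 := by field_simp
        rw [this]; exact hr4
      have h6 : 0 ≤ 1 - (r : ℝ) / q := by
        have : 0 < 1 / (q : ℝ) := by positivity
        linarith
      rw [h4]
      have h3 := Real.mul_le_sin (x := Real.pi * (1 - (r : ℝ) / q)) (by positivity) (by nlinarith)
      refine le_trans ?_ h3
      rw [show 2 / Real.pi * (Real.pi * (1 - (r : ℝ) / q)) = 2 * (1 - (r : ℝ) / q) by field_simp]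
      have : 2 / (q : ℝ) = 2 * (1 / q) := by ring
      rw [this]
      linarith
  have : 4 / (q : ℝ) = 2 * (2 / q) := by ring
  rw [this]
  have h7 := le_abs_self (Real.sin (Real.pi * ((r : ℝ) / q)))
  linarith

/-- Polynomial phases through their iterated differences: `Ph d γ φ` says that `φ` has degree at
most `d + 1` and that `(d+1)!` times its leading coefficient is `γ`. -/
def Ph : ℕ → ℝ → (ℕ → ℝ) → Prop
  | 0, γ, φ => ∀ y, φ (y + 1) - φ y = γ
  | d + 1, γ, φ => ∀ k : ℕ, Ph d (γ * k) (fun y => φ (y + k) - φ y)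

theorem ph0 (α β : ℝ) : Ph 0 α (fun y => α * y + β) := by
  intro y
  push_cast
  ring

theorem ph1 (α β γ : ℝ) : Ph 1 (2 * α) (fun y => α * y ^ 2 + β * y + γ) := by
  intro k y
  push_cast
  ring

theorem ph2 (α β γ δ : ℝ) :
    Ph 2 (6 * α) (fun y => α * y ^ 3 + β * y ^ 2 + γ * y + δ) := by
  intro k k' y
  push_cast
  ring

/-- Nonintegrality of all multiples `γ k`, `l ∤ k`. -/
def NI (l q : ℕ) (γ : ℝ) : Prop := ∀ k : ℕ, ¬ l ∣ k → 4 / (q : ℝ) ≤ ‖ee (γ * k) - 1‖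

/-- The linear case. -/
theorem lin_bound (q : ℕ) (hq : 0 < q) (γ : ℝ) (φ : ℕ → ℝ) (hφ : Ph 0 γ φ)
    (hγ : 4 / (q : ℝ) ≤ ‖ee γ - 1‖) (X : ℕ) : ‖∑ y ∈ range X, ee (φ y)‖ ≤ q / 2 := by
  have hq' : (0 : ℝ) < q := by exact_mod_cast hq
  have h1 : (ee γ - 1) * ∑ y ∈ range X, ee (φ y) = ee (φ X) - ee (φ 0) := by
    induction X with
    | zero => simp
    | succ X ih =>
      rw [Finset.sum_range_succ, mul_add, ih]
      have h2 : ee (φ (X + 1)) = ee γ * ee (φ X) := by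
        rw [← ee_add, ← hφ X]
        congr 1
        ring
      rw [h2]
      ring
  have h2 : ‖ee (φ X) - ee (φ 0)‖ ≤ 2 := by
    calc ‖ee (φ X) - ee (φ 0)‖ ≤ ‖ee (φ X)‖ + ‖ee (φ 0)‖ := norm_sub_le _ _
      _ = 2 := by rw [norm_ee, norm_ee]; norm_num
  rw [← h1, norm_mul] at h2
  have h3 : 4 / (q : ℝ) * ‖∑ y ∈ range X, ee (φ y)‖ ≤ 2 :=
    le_trans (mul_le_mul_of_nonneg_right hγ (norm_nonneg _)) h2
  rw [div_mul_eq_mul_div, div_le_iff₀ hq'] at h3
  linarith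

/-- The double sum of the differencing identity. -/
noncomputable def CC (z : ℕ → ℂ) (X : ℕ) : ℂ :=
  ∑ k ∈ Ico 1 X, ∑ y ∈ range (X - k), z (y + k) * (starRingEnd ℂ) (z y)

theorem CC_succ (z : ℕ → ℂ) (X : ℕ) :
    CC z (X + 1) = CC z X + z X * (starRingEnd ℂ) (∑ y ∈ range X, z y) := by
  unfold CC
  have h1 : ∀ k ∈ Ico 1 (X + 1), ∑ y ∈ range (X + 1 - k), z (y + k) * (starRingEnd ℂ) (z y) =
      ∑ y ∈ range (X - k), z (y + k) * (starRingEnd ℂ) (z y) +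
        z X * (starRingEnd ℂ) (z (X - k)) := by
    intro k hk
    rw [mem_Ico] at hk
    rw [show X + 1 - k = (X - k) + 1 by omega, Finset.sum_range_succ,
      show X - k + k = X by omega]
  rw [Finset.sum_congr rfl h1, Finset.sum_add_distrib, ← Finset.mul_sum]
  congr 1
  · rcases Nat.eq_zero_or_pos X with h0 | h0
    · subst h0; simp
    · rw [Finset.sum_Ico_succ_top h0]
      simp
  · congr 1
    rw [map_sum, ← Finset.sum_range_reflect, Finset.sum_Ico_eq_sum_range]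
    apply Finset.sum_congr (by simp)
    intro y hy
    rw [mem_range] at hy
    congr 2
    omega

theorem sq_identity (z : ℕ → ℂ) (X : ℕ) :
    ‖∑ y ∈ range X, z y‖ ^ 2 = ∑ y ∈ range X, ‖z y‖ ^ 2 + 2 * (CC z X).re := by
  induction X with
  | zero => simp [CC]
  | succ X ih =>
    rw [Finset.sum_range_succ, Finset.sum_range_succ, CC_succ, Complex.add_re]
    have h : ∀ a b : ℂ, ‖a + b‖ ^ 2 = ‖a‖ ^ 2 + ‖b‖ ^ 2 + 2 * (b * (starRingEnd ℂ) a).re := by
      intro a b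
      rw [← Complex.normSq_eq_norm_sq, ← Complex.normSq_eq_norm_sq, ← Complex.normSq_eq_norm_sq,
        Complex.normSq_add]
      have : (a * (starRingEnd ℂ) b).re = (b * (starRingEnd ℂ) a).re := by
        simp [Complex.mul_re]
        ring
      rw [this]
    rw [h, ih]
    ring

theorem sq_bound (z : ℕ → ℂ) (hz : ∀ y, ‖z y‖ = 1) (X : ℕ) :
    ‖∑ y ∈ range X, z y‖ ^ 2 ≤
      X + 2 * ∑ k ∈ Ico 1 X, ‖∑ y ∈ range (X - k), z (y + k) * (starRingEnd ℂ) (z y)‖ := by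
  rw [sq_identity]
  have h1 : ∑ y ∈ range X, ‖z y‖ ^ 2 = X := by simp [hz]
  rw [h1]
  have h2 : (CC z X).re ≤ ∑ k ∈ Ico 1 X, ‖∑ y ∈ range (X - k), z (y + k) * (starRingEnd ℂ) (z y)‖ :=
    (Complex.re_le_norm _).trans (norm_sum_le _ _)
  linarith

/-- The differencing step. -/
theorem weyl_step (l q d : ℕ) (hl : l.Prime) (X : ℕ) (B : ℝ) (hB : 0 ≤ B)
    (h : ∀ (γ : ℝ) (φ : ℕ → ℝ), Ph d γ φ → NI l q γ → ∀ X' ≤ X, ‖∑ y ∈ range X', ee (φ y)‖ ≤ B)
    (γ : ℝ) (φ : ℕ → ℝ) (hφ : Ph (d + 1) γ φ) (hγ : NI l q γ) (X' : ℕ) (hX : X' ≤ X) :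
    ‖∑ y ∈ range X', ee (φ y)‖ ^ 2 ≤ X + 2 * (X * B + (X : ℝ) / l * X) := by
  have h1 := sq_bound (fun y => ee (φ y)) (fun y => norm_ee _) X'
  refine h1.trans ?_
  have hXX : (X' : ℝ) ≤ X := by exact_mod_cast hX
  have hl0 : (0 : ℝ) < l := by exact_mod_cast hl.pos
  have h2 : ∀ k ∈ Ico 1 X', ‖∑ y ∈ range (X' - k), ee (φ (y + k)) * (starRingEnd ℂ) (ee (φ y))‖ ≤
      B + (if l ∣ k then (X : ℝ) else 0) := by
    intro k hk
    rw [mem_Ico] at hk
    have e1 : ∀ y, ee (φ (y + k)) * (starRingEnd ℂ) (ee (φ y)) = ee (φ (y + k) - φ y) :=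
      fun y => (ee_sub _ _).symm
    simp_rw [e1]
    by_cases hk' : l ∣ k
    · rw [if_pos hk']
      refine (norm_sum_le _ _).trans ?_
      simp only [norm_ee, Finset.sum_const, card_range, nsmul_eq_mul, mul_one]
      have : ((X' - k : ℕ) : ℝ) ≤ X := by exact_mod_cast (by omega : X' - k ≤ X)
      linarith
    · rw [if_neg hk', add_zero]
      refine h (γ * k) _ (hφ k) ?_ (X' - k) (by omega)
      intro k' hk''
      have : ¬ l ∣ k * k' := fun hh => (hl.dvd_mul.mp hh).elim hk' hk''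
      have := hγ (k * k') this
      rw [mul_assoc]
      push_cast at this
      exact this
  have h3 := Finset.sum_le_sum h2
  rw [Finset.sum_add_distrib, ← Finset.sum_filter, Finset.sum_const, Finset.sum_const,
    nsmul_eq_mul, nsmul_eq_mul, Nat.card_Ico] at h3
  have h4 : (#{k ∈ Ico 1 X' | l ∣ k} : ℝ) ≤ (X : ℝ) / l := by
    have h5 : #{k ∈ Ico 1 X' | l ∣ k} ≤ X / l := by
      have h6 : {k ∈ Ico 1 X' | l ∣ k} ⊆ {k ∈ Ioc 0 X | l ∣ k} := by
        intro k hk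
        simp only [mem_filter, mem_Ico, mem_Ioc] at hk ⊢
        exact ⟨⟨by omega, by omega⟩, hk.2⟩
      refine (Finset.card_le_card h6).trans ?_
      rw [Nat.Ioc_filter_dvd_card_eq_div]
    calc (#{k ∈ Ico 1 X' | l ∣ k} : ℝ) ≤ ((X / l : ℕ) : ℝ) := by exact_mod_cast h5
      _ ≤ (X : ℝ) / l := Nat.cast_div_le
  have h7 : ((X' - 1 : ℕ) : ℝ) ≤ X := by exact_mod_cast (by omega : X' - 1 ≤ X)
  have h8 : ((X' - 1 : ℕ) : ℝ) * B ≤ X * B := mul_le_mul_of_nonneg_right h7 hB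
  have h9 : (#{k ∈ Ico 1 X' | l ∣ k} : ℝ) * X ≤ (X : ℝ) / l * X :=
    mul_le_mul_of_nonneg_right h4 (by positivity)
  linarith

/-- **Weyl bound.** -/
theorem weyl (δ : ℝ) (hδ : 0 < δ) (hδ1 : δ ≤ 1) : ∃ (A l0 : ℕ), 0 < A ∧
    ∀ l : ℕ, l.Prime → l0 ≤ l → ∀ q : ℕ, l ≤ q → ∀ X : ℕ, A * q ≤ X →
    ∀ d : ℕ, d ≤ 2 → ∀ (γ : ℝ) (φ : ℕ → ℝ), Ph d γ φ → NI l q γ →
      ‖∑ y ∈ range X, ee (φ y)‖ ≤ δ * X := by
  set κ : ℝ := δ ^ 4 / 100 with hκ
  have hκ0 : 0 < κ := by positivity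
  obtain ⟨A, hA⟩ := exists_nat_gt (1 / κ)
  obtain ⟨l0, hl0⟩ := exists_nat_gt (3 / κ)
  have hA0 : (0 : ℝ) < A := lt_trans (by positivity) hA
  refine ⟨A, l0, by exact_mod_cast hA0, ?_⟩
  intro l hl hll q hq X hX d hd γ φ hφ hγ
  have hlpos : (0 : ℝ) < l := by exact_mod_cast hl.pos
  have hqpos : (0 : ℝ) < q := by exact_mod_cast (lt_of_lt_of_le hl.pos hq)
  have hXq : (A : ℝ) * q ≤ X := by exact_mod_cast hX
  have hXpos : (0 : ℝ) < X := lt_of_lt_of_le (by positivity) hXq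
  have hlX : (l : ℝ) ≤ X := by
    have h1 : (1 : ℝ) ≤ A := by exact_mod_cast (by exact_mod_cast hA0 : 0 < A)
    have h2 : (l : ℝ) ≤ q := by exact_mod_cast hq
    nlinarith
  -- small quantities
  have s1 : (q : ℝ) / 2 ≤ κ * X := by
    have h1 : 1 < κ * A := by
      rw [div_lt_iff₀ hκ0] at hA
      linarith
    nlinarith
  have s2 : 3 / (l : ℝ) ≤ κ := by
    have h1 : 3 / κ < l := lt_of_lt_of_le hl0 (by exact_mod_cast hll)
    rw [div_lt_iff₀ hκ0] at h1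
    rw [div_le_iff₀ hlpos]
    linarith
  -- degree one
  have b1 : ∀ (γ : ℝ) (φ : ℕ → ℝ), Ph 0 γ φ → NI l q γ → ∀ X' ≤ X,
      ‖∑ y ∈ range X', ee (φ y)‖ ≤ κ * X := by
    intro γ φ hφ hγ X' _
    have h1 : ¬ l ∣ 1 := by
      intro h
      have := Nat.dvd_one.mp h
      exact hl.one_lt.ne' this
    have h2 := hγ 1 h1
    rw [Nat.cast_one, mul_one] at h2
    exact (lin_bound q (lt_of_lt_of_le hl.pos hq) γ φ hφ h2 X').trans s1
  have stepb : ∀ (d : ℕ) (b b' : ℝ), 0 ≤ b → 0 ≤ b' → 2 * b + κ ≤ b' ^ 2 →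
      (∀ (γ : ℝ) (φ : ℕ → ℝ), Ph d γ φ → NI l q γ → ∀ X' ≤ X,
        ‖∑ y ∈ range X', ee (φ y)‖ ≤ b * X) →
      ∀ (γ : ℝ) (φ : ℕ → ℝ), Ph (d + 1) γ φ → NI l q γ → ∀ X' ≤ X,
        ‖∑ y ∈ range X', ee (φ y)‖ ≤ b' * X := by
    intro d b b' hb hb' hbb h γ φ hφ hγ X' hX'
    have h1 := weyl_step l q d hl X (b * X) (by positivity) h γ φ hφ hγ X' hX'
    have h2 : (X : ℝ) + 2 * (X * (b * X) + (X : ℝ) / l * X) ≤ (b' * X) ^ 2 := by
      have h3 : (X : ℝ) ≤ X ^ 2 / l := by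
        rw [le_div_iff₀ hlpos]
        nlinarith
      have h4 : (X : ℝ) + 2 * (X * (b * X) + (X : ℝ) / l * X) ≤ X ^ 2 * (2 * b + 3 / l) := by
        have e : (X : ℝ) ^ 2 * (2 * b + 3 / l) = X ^ 2 / l + 2 * (X * (b * X) + (X : ℝ) / l * X) := by
          field_simp
          ring
        rw [e]
        linarith
      have h5 : (X : ℝ) ^ 2 * (2 * b + 3 / l) ≤ X ^ 2 * b' ^ 2 :=
        mul_le_mul_of_nonneg_left (by linarith) (by positivity)
      calc _ ≤ _ := h4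
        _ ≤ _ := h5
        _ = _ := by ring
    exact abs_le_of_sq_le_sq' (h1.trans h2) (by positivity) |>.2
  have hδ2 : δ ^ 2 ≤ 1 := by nlinarith
  have hδ4 : δ ^ 4 ≤ δ ^ 2 := by nlinarith [sq_nonneg δ]
  have b2 := stepb 0 κ (δ ^ 2 / 4) hκ0.le (by positivity) (by rw [hκ]; nlinarith [sq_nonneg (δ ^ 2)]) b1
  have b3 := stepb 1 (δ ^ 2 / 4) δ (by positivity) hδ.le (by rw [hκ]; nlinarith) b2
  have hd' : d = 0 ∨ d = 1 ∨ d = 2 := by omega
  rcases hd' with rfl | rfl | rfl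
  · refine (b1 γ φ hφ hγ X le_rfl).trans ?_
    apply mul_le_mul_of_nonneg_right _ hXpos.le
    rw [hκ]
    nlinarith
  · refine (b2 γ φ hφ hγ X le_rfl).trans ?_
    apply mul_le_mul_of_nonneg_right _ hXpos.le
    nlinarith
  · exact b3 γ φ hφ hγ X le_rfl

end Pool.Agent.H34.Rud
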