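import Mathlib
import Pool.Agent.H34.Rud.Weyl

set_option autoImplicit false

/-!
# A trigonometric majorant of the lower half circle
-/

namespace Pool.Agent.H34.Rud

open Finset

/-- Trigonometric approximation of a continuous function of `sin (2 π x)`. -/
theorem trig_approx (f : ℝ → ℝ) (hf : Continuous f) (ε : ℝ) (hε : 0 < ε) :
    ∃ c : ℤ →₀ ℂ, ∀ x : ℝ, |f (Real.sin (2 * Real.pi * x)) -
      (∑ h ∈ c.support, c h * ee ((h : ℝ) * x)).re| ≤ ε := by
  have : Fact ((0 : ℝ) < 1) := ⟨one_pos⟩
  let F : C(AddCircle (1 : ℝ), ℂ) :=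
    ⟨fun x => ((f (fourier (T := (1:ℝ)) 1 x).im : ℝ) : ℂ), by
      apply Complex.continuous_ofReal.comp
      apply hf.comp
      exact Complex.continuous_im.comp (fourier (T := (1:ℝ)) 1).continuous⟩
  have h1 : F ∈ (Submodule.span ℂ (Set.range (@fourier (1 : ℝ)))).topologicalClosure := by
    rw [span_fourier_closure_eq_top]
    trivial
  have h2 : F ∈ closure ((Submodule.span ℂ (Set.range (@fourier (1 : ℝ))) : Set C(AddCircle (1 : ℝ), ℂ))) := by
    rw [← Submodule.topologicalClosure_coe]
    exact h1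
  rw [Metric.mem_closure_iff] at h2
  obtain ⟨P, hP, hd⟩ := h2 ε hε
  obtain ⟨c, hc⟩ := (Finsupp.mem_span_range_iff_exists_finsupp).mp hP
  refine ⟨c, fun x => ?_⟩
  have hee : ∀ (n : ℤ), fourier n ((x : ℝ) : AddCircle (1 : ℝ)) = ee ((n : ℝ) * x) := by
    intro n
    rw [fourier_coe_apply]
    unfold ee
    congr 1
    push_cast
    ring
  have hPx : P ((x : ℝ) : AddCircle (1 : ℝ)) = ∑ h ∈ c.support, c h * ee ((h : ℝ) * x) := by
    rw [← hc, Finsupp.sum, ContinuousMap.sum_apply]
    apply Finset.sum_congr rfl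
    intro h _
    rw [ContinuousMap.smul_apply, smul_eq_mul, hee]
  have hFx : F ((x : ℝ) : AddCircle (1 : ℝ)) = ((f (Real.sin (2 * Real.pi * x)) : ℝ) : ℂ) := by
    show ((f (fourier (T := (1:ℝ)) 1 ((x : ℝ) : AddCircle (1 : ℝ))).im : ℝ) : ℂ) = _
    rw [hee 1]
    unfold ee
    congr 2
    rw [Int.cast_one, one_mul, mul_comm, Complex.exp_ofReal_mul_I_im]
  have h3 : ‖(F - P) ((x : ℝ) : AddCircle (1 : ℝ))‖ ≤ ε := by
    refine (ContinuousMap.norm_coe_le_norm _ _).trans ?_
    rw [← dist_eq_norm]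
    exact hd.le
  rw [ContinuousMap.sub_apply, hFx, hPx] at h3
  have h4 := Complex.abs_re_le_norm (((f (Real.sin (2 * Real.pi * x)) : ℝ) : ℂ) -
    ∑ h ∈ c.support, c h * ee ((h : ℝ) * x))
  rw [Complex.sub_re, Complex.ofReal_re] at h4
  exact h4.trans h3

/-- The mean of `e (h r / N)`. -/
theorem mean_ee (N : ℕ) (hN : 0 < N) (h : ℤ) (hh : ¬ (N : ℤ) ∣ h) :
    ∑ r ∈ range N, ee ((h : ℝ) * ((r : ℝ) / N)) = 0 := by
  have hN' : (N : ℝ) ≠ 0 := by exact_mod_cast hN.ne'
  have h1 : ∀ r : ℕ, ee ((h : ℝ) * ((r : ℝ) / N)) = ee ((h : ℝ) / N) ^ r := by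
    intro r
    induction r with
    | zero => simp [ee_zero]
    | succ r ih =>
      rw [pow_succ, ← ih, ← ee_add]
      congr 1
      push_cast
      ring
  simp_rw [h1]
  have h2 : ee ((h : ℝ) / N) ≠ 1 := by
    intro h3
    have h4 := ee_rat h N hN hh
    rw [h3, sub_self, norm_zero] at h4
    have : (0 : ℝ) < 4 / N := by positivity
    linarith
  rw [geom_sum_eq h2]
  have h3 : ee ((h : ℝ) / N) ^ N = 1 := by
    rw [← h1, show (h : ℝ) * ((N : ℝ) / N) = ((h : ℤ) : ℝ) by field_simp]
    exact ee_int h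
  rw [h3, sub_self, zero_div]

/-- **The majorant.** -/
theorem majorant (β : ℝ) (hβ : 1 / 2 < β) : ∃ (s : Finset ℤ) (c : ℤ → ℂ) (g : ℝ → ℝ),
    (∀ x, (g x : ℂ) = ∑ h ∈ s, c h * ee ((h : ℝ) * x)) ∧ (∀ x, 0 ≤ g x) ∧
    (∀ x, Int.fract x ≤ 1 / 2 → 1 ≤ g x) ∧ 0 ∈ s ∧ ‖c 0‖ ≤ β := by
  classical
  wlog hβ1 : β ≤ 1 generalizing β
  · obtain ⟨s, c, g, h1, h2, h3, h4, h5⟩ := this 1 (by norm_num) le_rfl
    exact ⟨s, c, g, h1, h2, h3, h4, h5.trans (by linarith)⟩
  set ρ := β - 1 / 2 with hρ
  have hρ0 : 0 < ρ := by linarith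
  have hρ1 : ρ ≤ 1 / 2 := by linarith
  set ε := ρ / 8 with hε
  have hε0 : 0 < ε := by positivity
  -- the piecewise linear function
  set f : ℝ → ℝ := fun u => max 0 (min 1 (1 + u / ε)) with hf
  have hfc : Continuous f := by
    rw [hf]
    fun_prop
  have hf0 : ∀ u, 0 ≤ f u := fun u => le_max_left _ _
  have hf1 : ∀ u, f u ≤ 1 := fun u => max_le zero_le_one (min_le_left _ _)
  have hf2 : ∀ u, 0 ≤ u → f u = 1 := by
    intro u hu
    have h1 : 1 ≤ 1 + u / ε := by
      have : 0 ≤ u / ε := by positivity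
      linarith
    rw [hf]
    simp only
    rw [min_eq_left h1, max_eq_right zero_le_one]
  have hf3 : ∀ u, u ≤ -ε → f u = 0 := by
    intro u hu
    have h1 : 1 + u / ε ≤ 0 := by
      have : u / ε ≤ -1 := by
        rw [div_le_iff₀ hε0]
        linarith
      linarith
    rw [hf]
    simp only
    rw [min_eq_right (h1.trans zero_le_one), max_eq_left h1]
  obtain ⟨a, ha⟩ := trig_approx f hfc ε hε0
  -- symmetrised coefficients
  set s : Finset ℤ := insert 0 (a.support ∪ a.support.image (fun h => -h)) with hs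
  set c : ℤ → ℂ := fun h => (a h + (starRingEnd ℂ) (a (-h))) / 2 + (if h = 0 then (ε : ℂ) else 0) with hc
  set p : ℝ → ℂ := fun x => ∑ h ∈ a.support, a h * ee ((h : ℝ) * x) with hp
  set g : ℝ → ℝ := fun x => (p x).re + ε with hg
  have hs1 : ∀ x, ∑ h ∈ s, a h * ee ((h : ℝ) * x) = p x := by
    intro x
    rw [hp]
    symm
    apply Finset.sum_subset
    · intro h hh
      rw [hs]
      exact mem_insert_of_mem (mem_union_left _ hh)
    · intro h _ hh
      rw [Finsupp.notMem_support_iff.mp hh, zero_mul]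
  have hs2 : ∀ x, ∑ h ∈ s, (starRingEnd ℂ) (a (-h)) * ee ((h : ℝ) * x) = (starRingEnd ℂ) (p x) := by
    intro x
    rw [← hs1 x, map_sum]
    apply Finset.sum_nbij' (fun h => -h) (fun h => -h)
    · intro h hh
      rw [hs, mem_insert, mem_union, mem_image] at hh ⊢
      rcases hh with hh | hh | ⟨u, hu, rfl⟩
      · left; rw [hh]; rfl
      · right; right; exact ⟨h, hh, rfl⟩
      · right; left; rwa [neg_neg]
    · intro h hh
      rw [hs, mem_insert, mem_union, mem_image] at hh ⊢
      rcases hh with hh | hh | ⟨u, hu, rfl⟩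
      · left; rw [hh]; rfl
      · right; right; exact ⟨h, hh, rfl⟩
      · right; left; rwa [neg_neg]
    · intro h _; exact neg_neg h
    · intro h _; exact neg_neg h
    · intro h _
      rw [map_mul, conj_ee]
      congr 2
      push_cast
      ring
  have hgs : ∀ x, (g x : ℂ) = ∑ h ∈ s, c h * ee ((h : ℝ) * x) := by
    intro x
    have e1 : ∀ h ∈ s, c h * ee ((h : ℝ) * x) =
        (a h * ee ((h : ℝ) * x) + (starRingEnd ℂ) (a (-h)) * ee ((h : ℝ) * x)) / 2 +
          (if h = 0 then (ε : ℂ) else 0) * ee ((h : ℝ) * x) := by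
      intro h _
      rw [hc]
      simp only
      ring
    rw [Finset.sum_congr rfl e1, Finset.sum_add_distrib, ← Finset.sum_div, Finset.sum_add_distrib,
      hs1, hs2]
    have e2 : ∑ h ∈ s, (if h = 0 then (ε : ℂ) else 0) * ee ((h : ℝ) * x) = ε := by
      rw [Finset.sum_eq_single 0]
      · rw [if_pos rfl, Int.cast_zero, zero_mul, ee_zero, mul_one]
      · intro h _ hh
        rw [if_neg hh, zero_mul]
      · intro h0
        exact absurd (mem_insert_self 0 _) h0
    rw [e2, hg]
    simp only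
    push_cast
    rw [Complex.re_eq_add_conj]
  have hpa : ∀ x, |f (Real.sin (2 * Real.pi * x)) - (p x).re| ≤ ε := ha
  have hglow : ∀ x, f (Real.sin (2 * Real.pi * x)) ≤ g x := by
    intro x
    have := (abs_le.mp (hpa x)).2
    rw [hg]
    simp only
    linarith
  have hgup : ∀ x, g x ≤ f (Real.sin (2 * Real.pi * x)) + 2 * ε := by
    intro x
    have := (abs_le.mp (hpa x)).1
    rw [hg]
    simp only
    linarith
  refine ⟨s, c, g, hgs, fun x => (hf0 _).trans (hglow x), ?_, mem_insert_self _ _, ?_⟩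
  · intro x hx
    have h1 : 0 ≤ Real.sin (2 * Real.pi * x) := by
      have e1 : 2 * Real.pi * x = 2 * Real.pi * Int.fract x + (⌊x⌋ : ℤ) * (2 * Real.pi) := by
        conv_lhs => rw [← Int.fract_add_floor x]
        ring
      rw [e1, Real.sin_add_int_mul_two_pi]
      apply Real.sin_nonneg_of_nonneg_of_le_pi
      · have := Int.fract_nonneg x
        positivity
      · nlinarith [Real.pi_pos]
    have := hglow x
    rw [hf2 _ h1] at this
    exact this
  · -- the mean
    obtain ⟨N, hN⟩ : ∃ N : ℕ, 8 / ρ < N ∧ ∀ h ∈ s, h.natAbs < N := by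
      obtain ⟨N1, hN1⟩ := exists_nat_gt (8 / ρ)
      refine ⟨max N1 (s.sup Int.natAbs + 1), ?_, ?_⟩
      · refine lt_of_lt_of_le hN1 ?_
        exact_mod_cast le_max_left _ _
      · intro h hh
        have := Finset.le_sup (f := Int.natAbs) hh
        exact lt_of_lt_of_le (Nat.lt_succ_of_le this) (le_max_right _ _)
    obtain ⟨hN1, hN2⟩ := hN
    have hN0 : (0 : ℝ) < N := lt_trans (by positivity) hN1
    have hN0' : 0 < N := by exact_mod_cast hN0
    have h1 : ∑ r ∈ range N, (g ((r : ℝ) / N) : ℂ) = N * c 0 := by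
      simp_rw [hgs]
      rw [Finset.sum_comm]
      rw [Finset.sum_eq_single 0]
      · simp [ee_zero]
      · intro h hh h0
        rw [← Finset.mul_sum, mean_ee N hN0' h, mul_zero]
        intro hd
        have h2 := Int.natAbs_dvd_natAbs.mpr hd
        rw [Int.natAbs_natCast] at h2
        have h3 := Nat.le_of_dvd (Int.natAbs_pos.mpr h0) h2
        have h4 := hN2 h hh
        omega
      · intro h0
        exact absurd (mem_insert_self 0 _) h0
    have h2 : (c 0) = (((∑ r ∈ range N, g ((r : ℝ) / N)) / N : ℝ) : ℂ) := by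
      push_cast
      rw [h1, mul_div_cancel_left₀ _ (by exact_mod_cast hN0.ne')]
    rw [h2, Complex.norm_real, Real.norm_eq_abs, abs_of_nonneg]
    · rw [div_le_iff₀ hN0]
      -- count
      have h3 : ∀ r ∈ range N, g ((r : ℝ) / N) ≤
          2 * ε + (if (r : ℝ) < N * (1 / 2 + ε) ∨ N * (1 - ε) < (r : ℝ) then 1 else 0) := by
        intro r hr
        rw [mem_range] at hr
        refine (hgup _).trans ?_
        split_ifs with hcase
        · have := hf1 (Real.sin (2 * Real.pi * ((r : ℝ) / N)))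
          linarith
        · push Not at hcase
          obtain ⟨hc1, hc2⟩ := hcase
          have h4 : 1 / 2 + ε ≤ (r : ℝ) / N := by
            rw [le_div_iff₀ hN0]; linarith
          have h5 : (r : ℝ) / N ≤ 1 - ε := by
            rw [div_le_iff₀ hN0]; linarith
          have h6 : Real.sin (2 * Real.pi * ((r : ℝ) / N)) ≤ -ε := by
            set w := (r : ℝ) / N with hw
            have e1 : Real.sin (2 * Real.pi * w) = - Real.sin (2 * Real.pi * (w - 1 / 2)) := by
              rw [show 2 * Real.pi * w = 2 * Real.pi * (w - 1 / 2) + Real.pi by ring,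
                Real.sin_add_pi]
            rw [e1]
            have hpi := Real.pi_pos
            have e2 : ε ≤ Real.sin (2 * Real.pi * (w - 1 / 2)) := by
              rcases le_total w (3 / 4) with h | h
              · have h7 := Real.mul_le_sin (x := 2 * Real.pi * (w - 1 / 2))
                  (mul_nonneg (by positivity) (by linarith)) (by nlinarith)
                refine le_trans ?_ h7
                rw [show 2 / Real.pi * (2 * Real.pi * (w - 1 / 2)) = 4 * (w - 1 / 2) by
                  field_simp; ring]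
                linarith
              · have e3 : Real.sin (2 * Real.pi * (w - 1 / 2)) =
                    Real.sin (2 * Real.pi * (1 - w)) := by
                  rw [← Real.sin_pi_sub]
                  congr 1
                  ring
                rw [e3]
                have h7 := Real.mul_le_sin (x := 2 * Real.pi * (1 - w))
                  (mul_nonneg (by positivity) (by linarith)) (by nlinarith)
                refine le_trans ?_ h7
                rw [show 2 / Real.pi * (2 * Real.pi * (1 - w)) = 4 * (1 - w) by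
                  field_simp; ring]
                linarith
            linarith
          rw [hf3 _ h6]
          linarith
      have h4 := Finset.sum_le_sum h3
      obtain ⟨Bd, hBd⟩ : ∃ Bd : Finset ℕ, Bd = (range N).filter
        (fun r : ℕ => (r : ℝ) < N * (1 / 2 + ε) ∨ N * (1 - ε) < (r : ℝ)) := ⟨_, rfl⟩
      have h4' : ∑ r ∈ range N, (2 * ε +
          (if (r : ℝ) < N * (1 / 2 + ε) ∨ N * (1 - ε) < (r : ℝ) then (1 : ℝ) else 0)) =
          N * (2 * ε) + (Bd.card : ℝ) := by
        rw [Finset.sum_add_distrib, Finset.sum_const, card_range, nsmul_eq_mul,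
          ← Finset.sum_filter, Finset.sum_const, nsmul_eq_mul, mul_one, hBd]
      rw [h4'] at h4
      have h5 : (Bd.card : ℝ) ≤ (N * (1 / 2 + ε) + 1) + (N * ε + 1) := by
        have h6 : Bd ⊆
            range ⌈(N : ℝ) * (1 / 2 + ε)⌉₊ ∪ Ico ⌊(N : ℝ) * (1 - ε)⌋₊ N := by
          intro r hr
          rw [hBd, mem_filter, mem_range] at hr
          rw [mem_union, mem_range, mem_Ico]
          rcases hr.2 with h | h
          · left
            exact Nat.lt_ceil.mpr h
          · right
            refine ⟨?_, hr.1⟩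
            have : (⌊(N : ℝ) * (1 - ε)⌋₊ : ℝ) ≤ r :=
              (Nat.floor_le (mul_nonneg hN0.le (by linarith))).trans h.le
            exact_mod_cast this
        have h7 := (Finset.card_le_card h6).trans (Finset.card_union_le _ _)
        rw [card_range, Nat.card_Ico] at h7
        have h8 : (Bd.card : ℝ) ≤
            (⌈(N : ℝ) * (1 / 2 + ε)⌉₊ : ℝ) + ((N - ⌊(N : ℝ) * (1 - ε)⌋₊ : ℕ) : ℝ) := by
          exact_mod_cast h7
        have h9 : (⌈(N : ℝ) * (1 / 2 + ε)⌉₊ : ℝ) ≤ N * (1 / 2 + ε) + 1 :=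
          (Nat.ceil_lt_add_one (by positivity)).le
        have h10 : ((N - ⌊(N : ℝ) * (1 - ε)⌋₊ : ℕ) : ℝ) ≤ N * ε + 1 := by
          have h11 : ⌊(N : ℝ) * (1 - ε)⌋₊ ≤ N := by
            apply Nat.floor_le_of_le
            nlinarith
          rw [Nat.cast_sub h11]
          have h12 := Nat.lt_floor_add_one ((N : ℝ) * (1 - ε))
          linarith
        linarith
      have h13 : 2 ≤ N * (ρ / 4) := by
        rw [div_lt_iff₀ hρ0] at hN1
        linarith
      have e4 : β = 1 / 2 + ρ := by rw [hρ]; ring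
      rw [e4]
      have : ∑ r ∈ range N, g ((r : ℝ) / N) ≤ N * (2 * ε) + ((N * (1 / 2 + ε) + 1) + (N * ε + 1)) := by
        linarith
      refine this.trans ?_
      rw [hε]
      nlinarith
    · apply div_nonneg _ hN0.le
      exact Finset.sum_nonneg fun r _ => (hf0 _).trans (hglow _)

end Pool.Agent.H34.Rud
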