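import Mathlib
import Pool.Agent.H34.Rud.Weyl

set_option autoImplicit false

/-!
# Phases of the digits

`N y = n0 + n1 y + l k2 y ^ 2 + l ^ 2 k3 y ^ 3` with `l ∤ n1, k2, k3`.
-/

namespace Pool.Agent.H34.Rud

open Finset

/-- The cubic polynomials which occur. -/
def NN (l : ℕ) (n0 n1 k2 k3 : ℤ) (y : ℕ) : ℤ :=
  n0 + n1 * y + l * k2 * y ^ 2 + l ^ 2 * k3 * y ^ 3

theorem NI_rat (l : ℕ) (hl : l.Prime) (q e : ℕ) (he : 1 ≤ e) (hq : l ^ e ≤ q) (c : ℤ)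
    (hc : ¬ (l : ℤ) ∣ c) : NI l q ((c : ℝ) / (l : ℝ) ^ e) := by
  intro k hk
  have h1 : ¬ ((l ^ e : ℕ) : ℤ) ∣ c * k := by
    intro h
    have h2 : (l : ℤ) ∣ c * k := by
      refine dvd_trans ?_ h
      push_cast
      exact dvd_pow_self _ (by omega)
    rcases (Nat.prime_iff_prime_int.mp hl).dvd_or_dvd h2 with h3 | h3
    · exact hc h3
    · exact hk (by exact_mod_cast h3)
  have h2 := ee_rat (c * k) (l ^ e) (pow_pos hl.pos e) h1
  have h3 : (((c * k : ℤ) : ℝ)) / ((l ^ e : ℕ) : ℝ) = (c : ℝ) / (l : ℝ) ^ e * k := by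
    push_cast
    ring
  rw [h3] at h2
  refine le_trans ?_ h2
  have hlpos : (0 : ℝ) < ((l ^ e : ℕ) : ℝ) := by exact_mod_cast pow_pos hl.pos e
  apply div_le_div_of_nonneg_left (by norm_num) hlpos
  exact_mod_cast hq

theorem ee_congr (x y : ℝ) (m : ℤ) (h : x = y + m) : ee x = ee y := by
  rw [h, ee_add, ee_int, mul_one]

/-- The exponential sums of the digits are small. -/
theorem phase_bound (δ : ℝ) (hδ : 0 < δ) (hδ1 : δ ≤ 1) : ∃ (A l0 : ℕ), 0 < A ∧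
    ∀ l : ℕ, l.Prime → l0 ≤ l → ∀ k : ℕ, 2 ≤ k → ∀ X : ℕ, A * l ^ (k - 1) ≤ X →
    ∀ n0 n1 k2 k3 : ℤ, ¬ (l : ℤ) ∣ n1 → ¬ (l : ℤ) ∣ k2 → ¬ (l : ℤ) ∣ k3 →
    ∀ J : ℕ, 1 ≤ J → J ≤ k + 1 → ∀ H : ℤ, ¬ (l : ℤ) ∣ H →
      ‖∑ y ∈ range X, ee ((H : ℝ) * (NN l n0 n1 k2 k3 y : ℝ) / (l : ℝ) ^ J)‖ ≤ δ * X := by
  obtain ⟨A, l0, hA, h⟩ := weyl δ hδ hδ1
  refine ⟨A, max l0 5, hA, ?_⟩
  intro l hl hll k hk X hX n0 n1 k2 k3 h1 h2 h3 J hJ1 hJk H hH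
  have hl0 : l0 ≤ l := (le_max_left _ _).trans hll
  have hl5 : 5 ≤ l := (le_max_right _ _).trans hll
  have hlp := Nat.prime_iff_prime_int.mp hl
  have hlr : (l : ℝ) ≠ 0 := by exact_mod_cast hl.ne_zero
  have hlq : l ≤ l ^ (k - 1) := Nat.le_self_pow (by omega) l
  have hne : ∀ a b : ℤ, ¬ (l : ℤ) ∣ a → ¬ (l : ℤ) ∣ b → ¬ (l : ℤ) ∣ a * b := by
    intro a b ha hb hab
    exact (hlp.dvd_or_dvd hab).elim ha hb
  have hsmall : ∀ c : ℕ, 0 < c → c < l → ¬ (l : ℤ) ∣ (c : ℤ) := by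
    intro c hc hcl hd
    have : l ∣ c := by exact_mod_cast hd
    have := Nat.le_of_dvd hc this
    omega
  have h2l : ¬ (l : ℤ) ∣ 2 := by exact_mod_cast hsmall 2 (by norm_num) (by omega)
  have h6l : ¬ (l : ℤ) ∣ 6 := by
    have e3 : ¬ (l : ℤ) ∣ 3 := by exact_mod_cast hsmall 3 (by norm_num) (by omega)
    exact hne 2 3 h2l e3
  -- three cases
  rcases Nat.lt_or_ge J 3 with hJ | hJ
  · rcases Nat.lt_or_ge J 2 with hJ' | hJ'
    · have hJ : J = 1 := by omega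
      subst hJ
      have e1 : ∀ y ∈ range X, ee ((H : ℝ) * (NN l n0 n1 k2 k3 y : ℝ) / (l : ℝ) ^ 1) =
          ee ((((H * n1 : ℤ) : ℝ) / (l : ℝ) ^ 1) * y + (H : ℝ) * n0 / l) := by
        intro y _
        apply ee_congr _ _ (H * k2 * y ^ 2 + H * l * k3 * y ^ 3)
        unfold NN
        push_cast
        field_simp
        ring
      rw [Finset.sum_congr rfl e1]
      refine h l hl hl0 (l ^ (k - 1)) hlq X hX 0 (by omega) _ _ (ph0 _ _) ?_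
      exact NI_rat l hl _ 1 le_rfl (by simpa using hlq) _ (hne _ _ hH h1)
    · have hJ : J = 2 := by omega
      subst hJ
      have e1 : ∀ y ∈ range X, ee ((H : ℝ) * (NN l n0 n1 k2 k3 y : ℝ) / (l : ℝ) ^ 2) =
          ee (((H : ℝ) * k2 / l) * y ^ 2 + ((H : ℝ) * n1 / l ^ 2) * y + (H : ℝ) * n0 / l ^ 2) := by
        intro y _
        apply ee_congr _ _ (H * k3 * y ^ 3)
        unfold NN
        push_cast
        field_simp
        ring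
      rw [Finset.sum_congr rfl e1]
      refine h l hl hl0 (l ^ (k - 1)) hlq X hX 1 (by omega) _ _ (ph1 _ _ _) ?_
      have e2 : 2 * ((H : ℝ) * k2 / l) = (((2 * (H * k2) : ℤ) : ℝ)) / (l : ℝ) ^ 1 := by
        push_cast
        ring
      rw [e2]
      exact NI_rat l hl _ 1 le_rfl (by simpa using hlq) _ (hne _ _ h2l (hne _ _ hH h2))
  · obtain ⟨e, rfl⟩ : ∃ e, J = e + 3 := ⟨J - 3, by omega⟩
    have e1 : ∀ y ∈ range X, ee ((H : ℝ) * (NN l n0 n1 k2 k3 y : ℝ) / (l : ℝ) ^ (e + 3)) =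
        ee (((H : ℝ) * k3 / l ^ (e + 1)) * y ^ 3 + ((H : ℝ) * k2 / l ^ (e + 2)) * y ^ 2 +
          ((H : ℝ) * n1 / l ^ (e + 3)) * y + (H : ℝ) * n0 / l ^ (e + 3)) := by
      intro y _
      congr 1
      unfold NN
      push_cast
      rw [pow_succ, pow_succ, pow_succ]
      field_simp
      ring
    rw [Finset.sum_congr rfl e1]
    refine h l hl hl0 (l ^ (k - 1)) hlq X hX 2 (by omega) _ _ (ph2 _ _ _ _) ?_
    have e2 : 6 * ((H : ℝ) * k3 / l ^ (e + 1)) = (((6 * (H * k3) : ℤ) : ℝ)) / (l : ℝ) ^ (e + 1) := by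
      push_cast
      ring
    rw [e2]
    exact NI_rat l hl _ (e + 1) (by omega) (Nat.pow_le_pow_right hl.pos (by omega)) _
      (hne _ _ h6l (hne _ _ hH h3))

end Pool.Agent.H34.Rud
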