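import Mathlib
import Pool.Agent.H34.Rud.Phase
import Pool.Agent.H34.Rud.Major

set_option autoImplicit false

/-!
# Counting the values all of whose digits are in the lower half
-/

namespace Pool.Agent.H34.Rud

open Finset

/-- All of the first `J` digits of `v` in base `l` are in the lower half. -/
def Bad (l J : ℕ) (v : ℤ) : Prop := ∀ j, 1 ≤ j → j ≤ J → 2 * (v % (l : ℤ) ^ j) ≤ (l : ℤ) ^ j

noncomputable instance (l J : ℕ) (v : ℤ) : Decidable (Bad l J v) := Classical.dec _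

theorem bad_fract (l J : ℕ) (hl : 0 < l) (v : ℤ) (h : Bad l J v) (j : ℕ) (hj : j < J) :
    Int.fract ((v : ℝ) / (l : ℝ) ^ (j + 1)) ≤ 1 / 2 := by
  have h1 := h (j + 1) (by omega) (by omega)
  have e1 : ((l : ℝ) ^ (j + 1)) = ((l ^ (j + 1) : ℕ) : ℝ) := by push_cast; rfl
  rw [e1, Int.fract_div_intCast_eq_div_intCast_mod]
  have hpos : (0 : ℝ) < ((l ^ (j + 1) : ℕ) : ℝ) := by exact_mod_cast pow_pos hl _
  rw [div_le_iff₀ hpos]
  have h2 : ((2 * (v % ((l ^ (j + 1) : ℕ) : ℤ)) : ℤ) : ℝ) ≤ (((l ^ (j + 1) : ℕ) : ℤ) : ℝ) := by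
    have : 2 * (v % ((l ^ (j + 1) : ℕ) : ℤ)) ≤ ((l ^ (j + 1) : ℕ) : ℤ) := by
      push_cast
      exact h1
    exact_mod_cast this
  push_cast at h2 ⊢
  linarith

theorem sum_int (l : ℕ) (hl : 0 < l) (p : ℕ → ℤ) (J : ℕ) :
    ∃ G : ℤ, ∑ j ∈ range J, (p j : ℝ) / (l : ℝ) ^ (j + 1) = (G : ℝ) / (l : ℝ) ^ J := by
  have hl' : (l : ℝ) ≠ 0 := by exact_mod_cast hl.ne'
  induction J with
  | zero => exact ⟨0, by simp⟩
  | succ J ih =>
    obtain ⟨G, hG⟩ := ih
    refine ⟨G * l + p J, ?_⟩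
    rw [Finset.sum_range_succ, hG]
    push_cast
    rw [pow_succ]
    field_simp

theorem sum_unit (l : ℕ) (hl : 0 < l) (p : ℕ → ℤ) (hp : ∀ j, p j ≠ 0 → ¬ (l : ℤ) ∣ p j) (J : ℕ)
    (h : ∃ j < J, p j ≠ 0) :
    ∃ J', 1 ≤ J' ∧ J' ≤ J ∧ ∃ H : ℤ, ¬ (l : ℤ) ∣ H ∧
      ∑ j ∈ range J, (p j : ℝ) / (l : ℝ) ^ (j + 1) = (H : ℝ) / (l : ℝ) ^ J' := by
  have hl' : (l : ℝ) ≠ 0 := by exact_mod_cast hl.ne'
  induction J with
  | zero => obtain ⟨j, hj, _⟩ := h; omega
  | succ J ih =>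
    by_cases h0 : p J = 0
    · obtain ⟨j, hj, hj0⟩ := h
      have hjJ : j ≠ J := fun e => hj0 (e ▸ h0)
      obtain ⟨J', h1, h2, H, h3, h4⟩ := ih ⟨j, by omega, hj0⟩
      refine ⟨J', h1, by omega, H, h3, ?_⟩
      rw [Finset.sum_range_succ, h4, h0]
      simp
    · obtain ⟨G, hG⟩ := sum_int l hl p J
      refine ⟨J + 1, by omega, le_rfl, G * l + p J, ?_, ?_⟩
      · intro hd
        have := (Int.dvd_add_right (Dvd.intro_left G rfl)).mp hd
        exact hp J h0 this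
      · rw [Finset.sum_range_succ, hG]
        push_cast
        rw [pow_succ]
        field_simp

theorem ee_sum {ι : Type*} (s : Finset ι) (f : ι → ℝ) : ∏ i ∈ s, ee (f i) = ee (∑ i ∈ s, f i) := by
  classical
  induction s using Finset.induction_on with
  | empty => simp [ee_zero]
  | insert a s ha ih => rw [Finset.prod_insert ha, Finset.sum_insert ha, ih, ee_add]

/-- **Counting by Weyl sums.** -/
theorem weyl_count (β ε : ℝ) (hβ : 1 / 2 < β) (hε : 0 < ε) (k0 : ℕ) : ∃ (A l0 : ℕ), 0 < A ∧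
    ∀ l : ℕ, l.Prime → l0 ≤ l → ∀ k : ℕ, 2 ≤ k → k ≤ k0 → ∀ X : ℕ, A * l ^ (k - 1) ≤ X →
    ∀ n0 n1 k2 k3 : ℤ, ¬ (l : ℤ) ∣ n1 → ¬ (l : ℤ) ∣ k2 → ¬ (l : ℤ) ∣ k3 →
      (((range X).filter (fun y => Bad l (k + 1) (NN l n0 n1 k2 k3 y))).card : ℝ) ≤
        (β ^ (k + 1) + ε) * X := by
  obtain ⟨s, c, g, hg, hg0, hg1, hs0, hc0⟩ := majorant β hβ
  set C := ∑ h ∈ s, ‖c h‖ with hC
  have hC0 : 0 ≤ C := Finset.sum_nonneg fun _ _ => norm_nonneg _
  set δ := min 1 (ε / (C + 1) ^ (k0 + 1)) with hδ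
  have hδ0 : 0 < δ := lt_min one_pos (by positivity)
  have hδ1 : δ ≤ 1 := min_le_left _ _
  have hδC : ∀ k ≤ k0, C ^ (k + 1) * δ ≤ ε := by
    intro k hk
    have h1 : δ ≤ ε / (C + 1) ^ (k0 + 1) := min_le_right _ _
    have h2 : C ^ (k + 1) ≤ (C + 1) ^ (k0 + 1) := by
      calc C ^ (k + 1) ≤ (C + 1) ^ (k + 1) := pow_le_pow_left₀ hC0 (by linarith) _
        _ ≤ (C + 1) ^ (k0 + 1) := pow_le_pow_right₀ (by linarith) (by omega)
    have h3 : (0 : ℝ) < (C + 1) ^ (k0 + 1) := by positivity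
    calc C ^ (k + 1) * δ ≤ (C + 1) ^ (k0 + 1) * (ε / (C + 1) ^ (k0 + 1)) :=
          mul_le_mul h2 h1 hδ0.le h3.le
      _ = ε := by field_simp
  obtain ⟨A, l0, hA, hph⟩ := phase_bound δ hδ0 hδ1
  refine ⟨A, max l0 (s.sup Int.natAbs + 1), hA, ?_⟩
  intro l hl hll k hk hk0 X hX n0 n1 k2 k3 h1 h2 h3
  have hl0 : l0 ≤ l := (le_max_left _ _).trans hll
  have hls : s.sup Int.natAbs + 1 ≤ l := (le_max_right _ _).trans hll
  have hunit : ∀ h ∈ s, h ≠ 0 → ¬ (l : ℤ) ∣ h := by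
    intro h hh h0 hd
    have e1 := Int.natAbs_dvd_natAbs.mpr hd
    rw [Int.natAbs_natCast] at e1
    have e2 := Nat.le_of_dvd (Int.natAbs_pos.mpr h0) e1
    have e3 := Finset.le_sup (f := Int.natAbs) hh
    omega
  set N : ℕ → ℝ := fun y => ((NN l n0 n1 k2 k3 y : ℤ) : ℝ) with hN
  set T : ℝ := ∑ y ∈ range X, ∏ j : Fin (k + 1), g (N y / (l : ℝ) ^ ((j : ℕ) + 1)) with hT
  -- the bad values are counted by `T`
  have hcount : (((range X).filter (fun y => Bad l (k + 1) (NN l n0 n1 k2 k3 y))).card : ℝ) ≤ T := by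
    rw [Finset.card_eq_sum_ones, Nat.cast_sum, Finset.sum_filter]
    refine Finset.sum_le_sum fun y _ => ?_
    split_ifs with hb
    · push_cast
      have : ∏ j : Fin (k + 1), (1 : ℝ) ≤ ∏ j : Fin (k + 1), g (N y / (l : ℝ) ^ ((j : ℕ) + 1)) :=
        Finset.prod_le_prod (fun _ _ => zero_le_one) fun j _ =>
          hg1 _ (bad_fract l (k + 1) hl.pos _ hb j j.2)
      simpa using this
    · exact Finset.prod_nonneg fun j _ => hg0 _
  -- expansion
  have hexp : (T : ℂ) = ∑ p ∈ Fintype.piFinset (fun _ : Fin (k + 1) => s),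
      (∏ j : Fin (k + 1), c (p j)) *
        ∑ y ∈ range X, ee (∑ j : Fin (k + 1), (p j : ℝ) * (N y / (l : ℝ) ^ ((j : ℕ) + 1))) := by
    rw [hT]
    push_cast
    simp_rw [hg, Finset.prod_univ_sum, Finset.prod_mul_distrib, ee_sum]
    rw [Finset.sum_comm]
    simp_rw [Finset.mul_sum]
  have hnorm : ‖(T : ℂ)‖ ≤ ∑ p ∈ Fintype.piFinset (fun _ : Fin (k + 1) => s),
      ((if p = 0 then β ^ (k + 1) * X else 0) + (∏ j : Fin (k + 1), ‖c (p j)‖) * (δ * X)) := by
    rw [hexp]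
    refine (norm_sum_le _ _).trans (Finset.sum_le_sum fun p hp => ?_)
    rw [Fintype.mem_piFinset] at hp
    rw [norm_mul, norm_prod]
    have hX0 : (0 : ℝ) ≤ X := Nat.cast_nonneg X
    have hpr : 0 ≤ ∏ j : Fin (k + 1), ‖c (p j)‖ := Finset.prod_nonneg fun _ _ => norm_nonneg _
    by_cases hp0 : p = 0
    · rw [if_pos hp0]
      have e1 : ∏ j : Fin (k + 1), ‖c (p j)‖ ≤ β ^ (k + 1) := by
        rw [hp0]
        simp only [Pi.zero_apply, Finset.prod_const, Finset.card_univ, Fintype.card_fin]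
        exact pow_le_pow_left₀ (norm_nonneg _) hc0 _
      have e2 : ‖∑ y ∈ range X, ee (∑ j : Fin (k + 1), (p j : ℝ) * (N y / (l : ℝ) ^ ((j : ℕ) + 1)))‖ ≤ X := by
        refine (norm_sum_le _ _).trans ?_
        simp [norm_ee]
      have e3 : (∏ j : Fin (k + 1), ‖c (p j)‖) *
          ‖∑ y ∈ range X, ee (∑ j : Fin (k + 1), (p j : ℝ) * (N y / (l : ℝ) ^ ((j : ℕ) + 1)))‖ ≤
          β ^ (k + 1) * X := mul_le_mul e1 e2 (norm_nonneg _) (by positivity)
      have e4 : 0 ≤ (∏ j : Fin (k + 1), ‖c (p j)‖) * (δ * X) := by positivity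
      linarith
    · rw [if_neg hp0, zero_add]
      apply mul_le_mul_of_nonneg_left _ hpr
      -- extend `p` to `ℕ`
      set q : ℕ → ℤ := fun j => if h : j < k + 1 then p ⟨j, h⟩ else 0 with hq
      have hqj : ∀ j : Fin (k + 1), q j = p j := by
        intro j
        rw [hq]
        simp only
        rw [dif_pos j.2]
      have hq1 : ∀ j, q j ≠ 0 → ¬ (l : ℤ) ∣ q j := by
        intro j hj
        by_cases hjk : j < k + 1
        · have : q j = p ⟨j, hjk⟩ := by rw [hq]; simp [hjk]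
          rw [this] at hj ⊢
          exact hunit _ (hp _) hj
        · exfalso
          apply hj
          rw [hq]; simp [hjk]
      have hq2 : ∃ j < k + 1, q j ≠ 0 := by
        by_contra hcon
        push Not at hcon
        apply hp0
        funext j
        have := hcon j j.2
        rw [hqj] at this
        exact this
      obtain ⟨J', hJ1, hJ2, H, hH, hsum⟩ := sum_unit l hl.pos q hq1 (k + 1) hq2
      have e1 : ∀ y, ∑ j : Fin (k + 1), (p j : ℝ) * (N y / (l : ℝ) ^ ((j : ℕ) + 1)) =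
          (H : ℝ) * ((NN l n0 n1 k2 k3 y : ℤ) : ℝ) / (l : ℝ) ^ J' := by
        intro y
        have e2 : ∑ j : Fin (k + 1), (p j : ℝ) * (N y / (l : ℝ) ^ ((j : ℕ) + 1)) =
            ∑ j ∈ range (k + 1), (q j : ℝ) * (N y / (l : ℝ) ^ (j + 1)) := by
          rw [← Fin.sum_univ_eq_sum_range (fun j => (q j : ℝ) * (N y / (l : ℝ) ^ (j + 1))) (k + 1)]
          apply Finset.sum_congr rfl
          intro j _
          rw [hqj]
        rw [e2]
        have e3 : ∑ j ∈ range (k + 1), (q j : ℝ) * (N y / (l : ℝ) ^ (j + 1)) =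
            N y * ∑ j ∈ range (k + 1), (q j : ℝ) / (l : ℝ) ^ (j + 1) := by
          rw [Finset.mul_sum]
          apply Finset.sum_congr rfl
          intro j _
          ring
        rw [e3, hsum]
        ring
      simp_rw [e1]
      exact hph l hl hl0 k hk X hX n0 n1 k2 k3 h1 h2 h3 J' hJ1 hJ2 H hH
  have hfin : ∑ p ∈ Fintype.piFinset (fun _ : Fin (k + 1) => s),
      ((if p = 0 then β ^ (k + 1) * X else 0) + (∏ j : Fin (k + 1), ‖c (p j)‖) * (δ * X)) =
      β ^ (k + 1) * X + C ^ (k + 1) * (δ * X) := by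
    have e1 := Finset.prod_univ_sum (fun _ : Fin (k + 1) => s) (fun _ h => ‖c h‖)
    have e2 : (0 : Fin (k + 1) → ℤ) ∈ Fintype.piFinset (fun _ : Fin (k + 1) => s) :=
      Fintype.mem_piFinset.mpr fun _ => hs0
    rw [Finset.sum_add_distrib, ← Finset.sum_mul, ← e1, Finset.sum_ite_eq', if_pos e2]
    simp [hC]
  rw [hfin, Complex.norm_real, Real.norm_eq_abs] at hnorm
  refine hcount.trans ((le_abs_self T).trans (hnorm.trans ?_))
  have h4 := hδC k hk0
  have hX0 : (0 : ℝ) ≤ X := Nat.cast_nonneg X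
  nlinarith

/-- The bad residues. -/
noncomputable def BR (l k : ℕ) : Finset ℤ := (Finset.Ico (0 : ℤ) ((l : ℤ) ^ k)).filter (fun v => Bad l k v)

theorem card_BR (l : ℕ) (hl : 0 < l) (k : ℕ) : (BR l k).card ≤ (l / 2 + 1) ^ k := by
  induction k with
  | zero =>
    rw [pow_zero]
    refine (Finset.card_filter_le _ _).trans ?_
    simp
  | succ k ih =>
    have hlk : (0 : ℤ) < (l : ℤ) ^ k := by positivity
    have h1 : (BR l (k + 1)).card ≤ (BR l k ×ˢ (Finset.range (l / 2 + 1))).card := by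
      apply Finset.card_le_card_of_injOn
        (fun v => (v % (l : ℤ) ^ k, (v / (l : ℤ) ^ k).toNat))
      · intro v hv
        rw [Finset.mem_coe, BR, mem_filter, Finset.mem_Ico] at hv
        obtain ⟨⟨hv0, hv1⟩, hv2⟩ := hv
        rw [Finset.mem_coe, Finset.mem_product, BR, mem_filter, Finset.mem_Ico, mem_range]
        refine ⟨⟨⟨Int.emod_nonneg _ hlk.ne', Int.emod_lt_of_pos _ hlk⟩, ?_⟩, ?_⟩
        · intro j hj1 hj2
          rw [Int.emod_emod_of_dvd _ (pow_dvd_pow _ hj2)]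
          exact hv2 j hj1 (by omega)
        · have h2 := hv2 (k + 1) (by omega) le_rfl
          rw [Int.emod_eq_of_lt hv0 hv1] at h2
          have h3 : v / (l : ℤ) ^ k ≤ (l : ℤ) / 2 := by
            rw [Int.le_ediv_iff_mul_le (by norm_num)]
            have h4 : v / (l : ℤ) ^ k * (l : ℤ) ^ k ≤ v := Int.ediv_mul_le _ hlk.ne'
            have h5 : v / (l : ℤ) ^ k * 2 * (l : ℤ) ^ k ≤ (l : ℤ) * (l : ℤ) ^ k := by
              rw [pow_succ] at h2
              nlinarith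
            exact le_of_mul_le_mul_right h5 hlk
          have h6 : 0 ≤ v / (l : ℤ) ^ k := Int.ediv_nonneg hv0 hlk.le
          show (v / (l : ℤ) ^ k).toNat < l / 2 + 1
          omega
      · intro v hv w hw h
        rw [Finset.mem_coe, BR, mem_filter, Finset.mem_Ico] at hv hw
        simp only [Prod.mk.injEq] at h
        have hv6 : 0 ≤ v / (l : ℤ) ^ k := Int.ediv_nonneg hv.1.1 hlk.le
        have hw6 : 0 ≤ w / (l : ℤ) ^ k := Int.ediv_nonneg hw.1.1 hlk.le
        have h7 : v / (l : ℤ) ^ k = w / (l : ℤ) ^ k := by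
          have := h.2
          omega
        rw [← Int.mul_ediv_add_emod v ((l : ℤ) ^ k), ← Int.mul_ediv_add_emod w ((l : ℤ) ^ k), h7, h.1]
    refine h1.trans ?_
    rw [Finset.card_product, card_range, pow_succ]
    exact Nat.mul_le_mul_right _ ih

/-- **Counting by residues.** -/
theorem exact_count (l : ℕ) (hl : l.Prime) (k X : ℕ) (n0 n1 k2 k3 : ℤ) (h1 : ¬ (l : ℤ) ∣ n1) :
    ((range X).filter (fun y => Bad l k (NN l n0 n1 k2 k3 y))).card ≤
      (X / l ^ k + 1) * (l / 2 + 1) ^ k := by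
  have hlk : (0 : ℤ) < (l : ℤ) ^ k := by
    have : (0 : ℤ) < l := by exact_mod_cast hl.pos
    positivity
  have h2 : ((range X).filter (fun y => Bad l k (NN l n0 n1 k2 k3 y))).card ≤
      (Finset.range (X / l ^ k + 1) ×ˢ BR l k).card := by
    apply Finset.card_le_card_of_injOn
      (fun y => (y / l ^ k, NN l n0 n1 k2 k3 y % (l : ℤ) ^ k))
    · intro y hy
      rw [Finset.mem_coe, mem_filter, mem_range] at hy
      rw [Finset.mem_coe, Finset.mem_product, mem_range, BR, mem_filter, Finset.mem_Ico]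
      refine ⟨?_, ⟨Int.emod_nonneg _ hlk.ne', Int.emod_lt_of_pos _ hlk⟩, ?_⟩
      · exact Nat.lt_succ_of_le (Nat.div_le_div_right hy.1.le)
      · intro j hj1 hj2
        rw [Int.emod_emod_of_dvd _ (pow_dvd_pow _ hj2)]
        exact hy.2 j hj1 hj2
    · intro y _ z _ h
      simp only [Prod.mk.injEq] at h
      obtain ⟨e1, e2⟩ := h
      have e3 : (l : ℤ) ^ k ∣ NN l n0 n1 k2 k3 y - NN l n0 n1 k2 k3 z :=
        Int.ModEq.dvd (Int.ModEq.symm e2)
      have e4 : NN l n0 n1 k2 k3 y - NN l n0 n1 k2 k3 z =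
          ((y : ℤ) - z) * (n1 + l * (k2 * (y + z) + l * k3 * (y ^ 2 + y * z + z ^ 2))) := by
        unfold NN
        ring
      rw [e4] at e3
      have hlp := Nat.prime_iff_prime_int.mp hl
      have e5 : ¬ (l : ℤ) ∣ (n1 + l * (k2 * (y + z) + l * k3 * (y ^ 2 + y * z + z ^ 2))) := by
        intro hd
        exact h1 ((Int.dvd_add_left (Dvd.intro _ rfl)).mp hd)
      have e6 : IsCoprime ((l : ℤ) ^ k)
          (n1 + l * (k2 * (y + z) + l * k3 * (y ^ 2 + y * z + z ^ 2))) :=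
        IsCoprime.pow_left ((Prime.coprime_iff_not_dvd hlp).mpr e5)
      have e7 : (l : ℤ) ^ k ∣ (y : ℤ) - z := e6.dvd_of_dvd_mul_right e3
      have e8 : (y : ℤ) % (l : ℤ) ^ k = (z : ℤ) % (l : ℤ) ^ k :=
        (Int.modEq_iff_dvd.mpr e7).symm
      have e9 : y % l ^ k = z % l ^ k := by exact_mod_cast e8
      rw [← Nat.div_add_mod y (l ^ k), ← Nat.div_add_mod z (l ^ k), e1, e9]
  refine h2.trans ?_
  rw [Finset.card_product, card_range]
  exact Nat.mul_le_mul_left _ (card_BR l hl.pos k)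

end Pool.Agent.H34.Rud
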