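import Mathlib

set_option autoImplicit false

/-!
# Carries

Floor terms of the quotient `(2 n - 4)! / (n! (n + q)!)` (problem MP_1b1194_nt).
-/

namespace Pool.Agent.H34.Rud

open Finset

/-- The term of a large prime power is nonnegative when `n` is not `0` or `1` modulo it. -/
theorem term_ge (n q L : ℕ) (hL : 2 * q + 8 ≤ L) (hr : 2 ≤ n % L) :
    n / L + (n + q) / L ≤ (2 * n - 4) / L := by
  have hL0 : 0 < L := by omega
  have h1 := Nat.div_add_mod n L
  have h2 := Nat.mod_lt n hL0
  set a := n / L with ha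
  set r := n % L with hr'
  rcases lt_or_ge (r + q) L with h | h
  · have h3 : (n + q) / L = a := by
      rw [Nat.div_eq_iff hL0]
      constructor
      · nlinarith
      · have : a * L + L - 1 = L * a + L - 1 := by ring_nf
        rw [this]; omega
    rw [h3, Nat.le_div_iff_mul_le hL0]
    have : (a + a) * L = 2 * (L * a) := by ring
    rw [this]; omega
  · have h3 : (n + q) / L = a + 1 := by
      rw [Nat.div_eq_iff hL0]
      have e1 : (a + 1) * L = L * a + L := by ring
      constructor
      · rw [e1]; omega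
      · rw [e1]; omega
    rw [h3, Nat.le_div_iff_mul_le hL0]
    have : (a + (a + 1)) * L = 2 * (L * a) + L := by ring
    rw [this]; omega

/-- The term of a large prime power is at least `-1`. -/
theorem term_ge_neg (n q L : ℕ) (hL : 2 * q + 8 ≤ L) :
    n / L + (n + q) / L ≤ (2 * n - 4) / L + 1 := by
  have hL0 : 0 < L := by omega
  rcases Nat.lt_or_ge (n % L) 2 with h | h
  · have h1 := Nat.div_add_mod n L
    set a := n / L with ha
    set r := n % L with hr'
    have h3 : (n + q) / L = a := by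
      rw [Nat.div_eq_iff hL0]
      constructor
      · nlinarith
      · have : a * L + L - 1 = L * a + L - 1 := by ring_nf
        rw [this]; omega
    rw [h3]
    rcases Nat.eq_zero_or_pos a with h0 | h0
    · rw [h0]; exact Nat.zero_le _
    · have : a + a - 1 ≤ (2 * n - 4) / L := by
        rw [Nat.le_div_iff_mul_le hL0, Nat.sub_mul]
        have : (a + a) * L = 2 * (L * a) := by ring
        rw [this]
        have : L * 1 ≤ L * a := Nat.mul_le_mul_left _ h0
        omega
      omega
  · exact (term_ge n q L hL h).trans (Nat.le_succ _)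

/-- The term of a prime power is at least `1` when `n` lies in the upper half modulo it. -/
theorem term_gt (n q L : ℕ) (hL : 0 < L) (h1 : L + 4 ≤ 2 * (n % L)) (h2 : n % L + q < L) :
    n / L + (n + q) / L + 1 ≤ (2 * n - 4) / L := by
  have h0 := Nat.div_add_mod n L
  set a := n / L with ha
  set r := n % L with hr'
  have h3 : (n + q) / L = a := by
    rw [Nat.div_eq_iff hL]
    constructor
    · nlinarith
    · have : a * L + L - 1 = L * a + L - 1 := by ring_nf
      rw [this]; omega
  rw [h3, Nat.le_div_iff_mul_le hL]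
  have : (a + a + 1) * L = 2 * (L * a) + L := by ring
  rw [this]; omega

/-- A crude lower bound for every term. -/
theorem term_crude (n q L : ℕ) (hL : 0 < L) :
    n / L + (n + q) / L ≤ (2 * n - 4) / L + (q + 6) := by
  have h0 := Nat.div_add_mod n L
  have h0' := Nat.mod_lt n hL
  set a := n / L with ha
  set r := n % L with hr'
  have h3 : (n + q) / L ≤ a + (q + 1) := by
    rw [← Nat.lt_succ_iff, Nat.div_lt_iff_lt_mul hL]
    have e1 : (a + (q + 1)).succ * L = L * a + q * L + 2 * L := by
      rw [Nat.succ_eq_add_one]; ring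
    rw [e1]
    have : q * 1 ≤ q * L := Nat.mul_le_mul_left _ hL
    omega
  have h4 : a + a ≤ (2 * n - 4) / L + 5 := by
    have hz : 0 ≤ (2 * n - 4) / L := Nat.zero_le _
    rcases Nat.lt_or_ge (a + a) 5 with h | h
    · exact h.le.trans (Nat.le_add_left _ _)
    · have : a + a - 5 ≤ (2 * n - 4) / L := by
        rw [Nat.le_div_iff_mul_le hL, Nat.sub_mul]
        have : (a + a) * L = 2 * (L * a) := by ring
        rw [this]
        omega
      omega
  omega

/-- `n` is good at the prime `l`: some digit above the first is in the upper half. -/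
def Good (q n l : ℕ) : Prop :=
  ∃ j, 2 ≤ j ∧ l ^ j + 4 ≤ 2 * (n % l ^ j) ∧ n % l ^ j + q < l ^ j

/-- Divisibility from the floor sums. -/
theorem dvd_of_sums (q n : ℕ)
    (h : ∀ l : ℕ, l.Prime → ∀ b : ℕ, n + q + 2 * n < b →
      ∑ i ∈ Ico 1 b, (n / l ^ i + (n + q) / l ^ i) ≤ ∑ i ∈ Ico 1 b, (2 * n - 4) / l ^ i) :
    n.factorial * (n + q).factorial ∣ (2 * n - 4).factorial := by
  have h1 : n.factorial * (n + q).factorial ≠ 0 :=
    mul_ne_zero (Nat.factorial_ne_zero _) (Nat.factorial_ne_zero _)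
  rw [← Nat.factorization_prime_le_iff_dvd h1 (Nat.factorial_ne_zero _)]
  intro l hl
  rw [Nat.factorization_mul (Nat.factorial_ne_zero _) (Nat.factorial_ne_zero _),
    Finsupp.add_apply]
  set b := n + q + 2 * n + 1 with hb
  have hlog : ∀ x, x < b → Nat.log l x < b := fun x hx =>
    lt_of_le_of_lt (Nat.log_le_self _ _) hx
  rw [Nat.factorization_factorial hl (hlog n (by omega)),
    Nat.factorization_factorial hl (hlog (n + q) (by omega)),
    Nat.factorization_factorial hl (hlog (2 * n - 4) (by omega)), ← Finset.sum_add_distrib]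
  exact h l hl b (by omega)

/-- Large primes. -/
theorem large_prime (q n l : ℕ) (hl : l.Prime) (hlq : 2 * q + 8 ≤ l)
    (h : 2 ≤ n % l ∨ (n % l < 2 ∧ 2 ≤ n % l ^ 2 ∧ Good q n l)) (b : ℕ) (hb : n + q + 2 * n < b) :
    ∑ i ∈ Ico 1 b, (n / l ^ i + (n + q) / l ^ i) ≤ ∑ i ∈ Ico 1 b, (2 * n - 4) / l ^ i := by
  have hpow : ∀ i, 1 ≤ i → 2 * q + 8 ≤ l ^ i := fun i hi =>
    hlq.trans (Nat.le_self_pow (by omega) l)
  rcases h with h | ⟨h1, h2, j, hj, h3, h4⟩
  · refine Finset.sum_le_sum fun i hi => ?_
    rw [Finset.mem_Ico] at hi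
    refine term_ge n q _ (hpow i hi.1) ?_
    have : n % l ^ i % l = n % l := Nat.mod_mod_of_dvd _ (dvd_pow_self l (by omega))
    have h5 := Nat.mod_le (n % l ^ i) l
    omega
  · -- the term `1` is at least `-1`, the term `j` is at least `1`, the others are nonnegative
    have hjb : j < b := by
      by_contra hjb
      push Not at hjb
      have h6 : n < l ^ j := by
        have h7 : j < 2 ^ j := Nat.lt_two_pow_self
        have h8 : 2 ^ j ≤ l ^ j := Nat.pow_le_pow_left hl.two_le j
        omega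
      rw [Nat.mod_eq_of_lt h6] at h3
      have h7 : j < 2 ^ j := Nat.lt_two_pow_self
      have h8 : 2 ^ j ≤ l ^ j := Nat.pow_le_pow_left hl.two_le j
      omega
    have hmod : ∀ i, 2 ≤ i → 2 ≤ n % l ^ i := by
      intro i hi
      have : n % l ^ i % l ^ 2 = n % l ^ 2 := Nat.mod_mod_of_dvd _ (pow_dvd_pow l hi)
      have h5 := Nat.mod_le (n % l ^ i) (l ^ 2)
      omega
    have hge : ∀ i ∈ Ico 1 b, n / l ^ i + (n + q) / l ^ i + (if i = j then 1 else 0) ≤
        (2 * n - 4) / l ^ i + (if i = 1 then 1 else 0) := by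
      intro i hi
      rw [Finset.mem_Ico] at hi
      by_cases e1 : i = 1
      · have : ¬ (i = j) := by omega
        rw [if_pos e1, if_neg this]
        exact term_ge_neg n q _ (hpow i hi.1)
      · rw [if_neg e1]
        by_cases e2 : i = j
        · rw [if_pos e2, e2]
          exact term_gt n q _ (pow_pos hl.pos _) h3 h4
        · rw [if_neg e2]
          exact term_ge n q _ (hpow i hi.1) (hmod i (by omega))
    have hs := Finset.sum_le_sum hge
    rw [Finset.sum_add_distrib, Finset.sum_add_distrib (f := fun i => (2 * n - 4) / l ^ i),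
      Finset.sum_ite_eq', Finset.sum_ite_eq',
      if_pos (Finset.mem_Ico.mpr ⟨by omega, hjb⟩), if_pos (Finset.mem_Ico.mpr ⟨le_rfl, by omega⟩)] at hs
    omega

/-- Small primes. -/
theorem small_prime (q n l m E : ℕ) (hl : l.Prime) (hm : q < m)
    (hE : (2 * m + 2 * q + 8) * (q + 8) ≤ E) (hn : l ^ E ∣ n + m) (b : ℕ) (hb : E < b) :
    ∑ i ∈ Ico 1 b, (n / l ^ i + (n + q) / l ^ i) ≤ ∑ i ∈ Ico 1 b, (2 * n - 4) / l ^ i := by
  set j0 := 2 * m + 2 * q + 8 with hj0
  have hj0E : j0 ≤ E := by nlinarith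
  have hpow : ∀ i, j0 ≤ i → j0 < l ^ i := by
    intro i hi
    have h7 : i < 2 ^ i := Nat.lt_two_pow_self
    have h8 : 2 ^ i ≤ l ^ i := Nat.pow_le_pow_left hl.two_le i
    omega
  -- residues up to `E`
  have hres : ∀ i, j0 ≤ i → i ≤ E → n % l ^ i = l ^ i - m := by
    intro i h1 h2
    have h3 : l ^ i ∣ n + m := (pow_dvd_pow l h2).trans hn
    have h4 := hpow i h1
    obtain ⟨c, hc⟩ := h3
    have hc1 : 1 ≤ c := by
      rcases Nat.eq_zero_or_pos c with h0 | h0
      · rw [h0, mul_zero] at hc; omega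
      · exact h0
    have h5 : n = (l ^ i - m) + l ^ i * (c - 1) := by
      have : l ^ i * (c - 1) = l ^ i * c - l ^ i := by rw [Nat.mul_sub, mul_one]
      have h6 : l ^ i * 1 ≤ l ^ i * c := Nat.mul_le_mul_left _ hc1
      omega
    conv_lhs => rw [h5]
    rw [Nat.add_mul_mod_self_left, Nat.mod_eq_of_lt (by omega)]
  have hge : ∀ i ∈ Ico 1 b, n / l ^ i + (n + q) / l ^ i + (if j0 ≤ i ∧ i ≤ E then 1 else 0) ≤
      (2 * n - 4) / l ^ i + (if i < j0 then (q + 6) else 0) := by
    intro i hi
    rw [Finset.mem_Ico] at hi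
    by_cases e1 : i < j0
    · have : ¬ (j0 ≤ i ∧ i ≤ E) := by omega
      rw [if_pos e1, if_neg this]
      exact term_crude n q _ (pow_pos hl.pos _)
    · rw [if_neg e1]
      push Not at e1
      have h4 := hpow i e1
      by_cases e2 : i ≤ E
      · rw [if_pos ⟨e1, e2⟩]
        have h3 := hres i e1 e2
        exact term_gt n q _ (pow_pos hl.pos _) (by omega) (by omega)
      · have : ¬ (j0 ≤ i ∧ i ≤ E) := by omega
        rw [if_neg this]
        refine term_ge n q _ (by omega) ?_
        have h5 : n % l ^ i % l ^ E = n % l ^ E := Nat.mod_mod_of_dvd _ (pow_dvd_pow l (by omega))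
        have h6 := Nat.mod_le (n % l ^ i) (l ^ E)
        have h7 := hres E hj0E le_rfl
        have h8 := hpow E hj0E
        omega
  have hs := Finset.sum_le_sum hge
  rw [Finset.sum_add_distrib, Finset.sum_add_distrib (f := fun i => (2 * n - 4) / l ^ i),
    ← Finset.sum_filter, ← Finset.sum_filter, Finset.sum_const, Finset.sum_const] at hs
  have c1 : #{i ∈ Ico 1 b | j0 ≤ i ∧ i ≤ E} = E + 1 - j0 := by
    have : {i ∈ Ico 1 b | j0 ≤ i ∧ i ≤ E} = Ico j0 (E + 1) := by
      ext i; simp only [Finset.mem_filter, Finset.mem_Ico]; omega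
    rw [this, Nat.card_Ico]
  have c2 : #{i ∈ Ico 1 b | i < j0} = j0 - 1 := by
    have : {i ∈ Ico 1 b | i < j0} = Ico 1 j0 := by
      ext i; simp only [Finset.mem_filter, Finset.mem_Ico]; omega
    rw [this, Nat.card_Ico]
  rw [c1, c2, smul_eq_mul, smul_eq_mul, mul_one] at hs
  have h9 : (j0 - 1) * (q + 6) + j0 ≤ E + 1 := by
    have : (j0 - 1) * (q + 6) ≤ j0 * (q + 6) := Nat.mul_le_mul_right _ (Nat.sub_le _ _)
    have e : j0 * (q + 8) = j0 * (q + 6) + 2 * j0 := by ring
    omega
  omega

end Pool.Agent.H34.Rud
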