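import Mathlib
import Pool.Agent.H34.Rud.Count
import Pool.Agent.H34.Rud.Carry

set_option autoImplicit false

/-!
# The cubic family

`600 n = t (t - 10) (t - 29)` and `600 (n - 1) = (t - 4) (t - 5) (t - 30)`.
-/

namespace Pool.Agent.H34.Rud

open Finset

/-- A root of one of the two cubics: `600 (n - i) = s ^ 3 + a s ^ 2 + c s`, `s = t - ρ`. -/
structure Root where
  ρ : ℤ
  i : ℤ
  a : ℤ
  c : ℤ

/-- The six roots. -/
def roots : List Root :=
  [⟨0, 0, -39, 290⟩, ⟨10, 0, -9, -190⟩, ⟨29, 0, 48, 551⟩,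
   ⟨4, 1, -27, 26⟩, ⟨5, 1, -24, -25⟩, ⟨30, 1, 51, 650⟩]

theorem roots_cases {P : Root → Prop} (h0 : P ⟨0, 0, -39, 290⟩) (h1 : P ⟨10, 0, -9, -190⟩)
    (h2 : P ⟨29, 0, 48, 551⟩) (h3 : P ⟨4, 1, -27, 26⟩) (h4 : P ⟨5, 1, -24, -25⟩)
    (h5 : P ⟨30, 1, 51, 650⟩) : ∀ R ∈ roots, P R := by
  intro R hR
  simp only [roots, List.mem_cons, List.not_mem_nil, or_false] at hR
  rcases hR with rfl | rfl | rfl | rfl | rfl | rfl
  · exact h0
  · exact h1
  · exact h2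
  · exact h3
  · exact h4
  · exact h5

/-- The residues of the second digits. -/
theorem res_all : ∀ R ∈ roots, ∀ v < 600, Nat.Coprime v 600 →
    340 ≤ ((404 - R.ρ) ^ 2 * (404 - R.ρ + R.a) * (v : ℤ) ^ 2) % 600 ∧
    ((404 - R.ρ) ^ 2 * (404 - R.ρ + R.a) * (v : ℤ) ^ 2) % 600 ≤ 560 := by
  have h : ∀ R ∈ [((0 : ℤ), (-39 : ℤ)), (10, -9), (29, 48), (4, -27), (5, -24), (30, 51)],
      ∀ v < 600, Nat.Coprime v 600 →
      340 ≤ ((404 - R.1) ^ 2 * (404 - R.1 + R.2) * (v : ℤ) ^ 2) % 600 ∧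
      ((404 - R.1) ^ 2 * (404 - R.1 + R.2) * (v : ℤ) ^ 2) % 600 ≤ 560 := by
    decide +kernel
  intro R hR v hv hc
  have := h (R.ρ, R.a) (by
    simp only [roots, List.mem_cons, List.not_mem_nil, or_false] at hR
    rcases hR with rfl | rfl | rfl | rfl | rfl | rfl <;> simp) v hv hc
  exact this

theorem root_id (R : Root) (hR : R ∈ roots) (t : ℤ) : t * (t - 10) * (t - 29) - 600 * R.i =
    (t - R.ρ) ^ 3 + R.a * (t - R.ρ) ^ 2 + R.c * (t - R.ρ) := by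
  revert R
  apply roots_cases <;> ring

theorem root_bd (R : Root) (hR : R ∈ roots) : R.a ≠ 0 ∧ |R.a| ≤ 650 ∧ R.c ≠ 0 ∧ |R.c| ≤ 650 ∧
    (R.i = 0 ∨ R.i = 1) ∧ 0 ≤ R.ρ ∧ R.ρ ≤ 30 := by
  revert R
  apply roots_cases <;> norm_num

/-- The residue of `m ^ 2 (l m + a)` modulo `600`. -/
theorem res_mod (R : Root) (hR : R ∈ roots) (l m t : ℤ) (hl : IsCoprime l 600)
    (ht : t % 600 = 404) (h : t - R.ρ = l * m) :
    340 ≤ (m ^ 2 * (l * m + R.a)) % 600 ∧ (m ^ 2 * (l * m + R.a)) % 600 ≤ 560 := by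
  obtain ⟨w, z, hw⟩ := hl
  -- `w` is an inverse of `l` modulo `600`
  set v := (w % 600).toNat with hv
  have hv0 : 0 ≤ w % 600 := Int.emod_nonneg _ (by norm_num)
  have hv1 : w % 600 < 600 := Int.emod_lt_of_pos _ (by norm_num)
  have hvz : (v : ℤ) = w % 600 := by rw [hv]; omega
  have hvm : (v : ℤ) ≡ w [ZMOD 600] := by rw [hvz]; exact Int.mod_modEq _ _
  have hlw : l * w ≡ 1 [ZMOD 600] := by
    rw [Int.modEq_iff_dvd]
    exact ⟨z, by linarith⟩
  have hlv : l * v ≡ 1 [ZMOD 600] := (Int.ModEq.mul_left l hvm).trans hlw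
  have hcop : Nat.Coprime v 600 := by
    have h1 : IsCoprime (v : ℤ) ((600 : ℕ) : ℤ) := by
      rw [Int.modEq_iff_dvd] at hlv
      obtain ⟨u, hu⟩ := hlv
      exact ⟨l, u, by push_cast; linarith⟩
    exact Int.isCoprime_iff_gcd_eq_one.mp h1 |> fun h => by
      rwa [Int.gcd_natCast_natCast] at h
  have htm : t ≡ 404 [ZMOD 600] := by
    show t % 600 = 404 % 600
    rw [ht]; rfl
  have hs : l * m ≡ 404 - R.ρ [ZMOD 600] := by
    rw [← h]
    exact Int.ModEq.sub_right _ htm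
  have hm : m ≡ (404 - R.ρ) * v [ZMOD 600] := by
    calc m = 1 * m := (one_mul m).symm
      _ ≡ (l * v) * m [ZMOD 600] := (Int.ModEq.mul_right m hlv).symm
      _ = (l * m) * v := by ring
      _ ≡ (404 - R.ρ) * v [ZMOD 600] := Int.ModEq.mul_right _ hs
  have hU : m ^ 2 * (l * m + R.a) ≡ (404 - R.ρ) ^ 2 * (404 - R.ρ + R.a) * (v : ℤ) ^ 2 [ZMOD 600] := by
    calc m ^ 2 * (l * m + R.a) ≡ ((404 - R.ρ) * v) ^ 2 * (404 - R.ρ + R.a) [ZMOD 600] :=
          Int.ModEq.mul (Int.ModEq.pow 2 hm) (Int.ModEq.add_right _ hs)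
      _ = (404 - R.ρ) ^ 2 * (404 - R.ρ + R.a) * (v : ℤ) ^ 2 := by ring
  have hr := res_all R hR v (by omega) hcop
  have hU' : (m ^ 2 * (l * m + R.a)) % 600 =
    ((404 - R.ρ) ^ 2 * (404 - R.ρ + R.a) * (v : ℤ) ^ 2) % 600 := hU
  rw [hU']
  exact hr

/-- **The deterministic second digit.** -/
theorem det_digit (R : Root) (hR : R ∈ roots) (l m t N : ℤ) (hl : IsCoprime l 600) (hl0 : 0 < l)
    (ht : t % 600 = 404) (h : t - R.ρ = l * m) (hm0 : 0 ≤ m) (hm : 65 * m ≤ 2 * l)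
    (hN : 600 * N = l ^ 2 * m ^ 3 + R.a * l * m ^ 2 + R.c * m) : l < 2 * (N % l) := by
  obtain ⟨h1, h2⟩ := res_mod R hR l m t hl ht h
  obtain ⟨-, -, -, hc, -⟩ := root_bd R hR
  set U := m ^ 2 * (l * m + R.a) with hU
  have h3 := Int.mul_ediv_add_emod U 600
  set u := U / 600 with hu
  set v := U % 600 with hv
  have h4 : 600 * (N - l * u) = l * v + R.c * m := by
    have : 600 * N = l * U + R.c * m := by rw [hN, hU]; ring
    rw [mul_sub, this, ← h3]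
    ring
  have hc' := abs_le.mp hc
  have h5 : R.c * m ≤ 650 * m := mul_le_mul_of_nonneg_right hc'.2 hm0
  have h6 : -650 * m ≤ R.c * m := mul_le_mul_of_nonneg_right (by linarith [hc'.1]) hm0
  have h7 : 340 * l ≤ l * v := by nlinarith
  have h8 : l * v ≤ 560 * l := by nlinarith
  have h9 : N % l = N - l * u := by
    have e1 : N = (N - l * u) + l * u := by ring
    conv_lhs => rw [e1]
    rw [Int.add_mul_emod_self_left]
    apply Int.emod_eq_of_lt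
    · nlinarith
    · nlinarith
  rw [h9]
  nlinarith

/-- The quotient `(n - i) / l` as a polynomial of the block index. -/
theorem nn_form (R : Root) (W l c n0 : ℤ)
    (hn0 : 600 * n0 = l ^ 2 * c ^ 3 + R.a * l * c ^ 2 + R.c * c) (y : ℕ) (N : ℤ)
    (hN : 600 * N = l ^ 2 * (c + 600 * W * y) ^ 3 + R.a * l * (c + 600 * W * y) ^ 2 +
      R.c * (c + 600 * W * y)) :
    N = n0 + (W * (l * (3 * l * c ^ 2 + 2 * R.a * c) + R.c)) * y +
      l * (W * (600 * W) * (3 * l * c + R.a)) * y ^ 2 +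
      l ^ 2 * (W * (600 * W) ^ 2) * y ^ 3 := by
  have : 600 * N = 600 * (n0 + (W * (l * (3 * l * c ^ 2 + 2 * R.a * c) + R.c)) * y +
      l * (W * (600 * W) * (3 * l * c + R.a)) * y ^ 2 +
      l ^ 2 * (W * (600 * W) ^ 2) * y ^ 3) := by
    linear_combination hN - hn0
  linarith

end Pool.Agent.H34.Rud
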