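import Mathlib
import Pool.Agent.H34.Rud.Family

set_option autoImplicit false

/-!
# Bad values in blocks
-/

namespace Pool.Agent.H34.Rud

open Finset

/-- A set contained in one residue class. -/
theorem card_class (Z d : ℕ) (S : Finset ℕ) (hS : S ⊆ range Z)
    (h : ∀ x ∈ S, ∀ y ∈ S, x % d = y % d) : S.card ≤ Z / d + 1 := by
  have : S.card ≤ (range (Z / d + 1)).card := by
    apply Finset.card_le_card_of_injOn (fun x => x / d)
    · intro x hx
      have := hS hx
      rw [mem_range] at this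
      rw [Finset.mem_coe, mem_range]
      exact Nat.lt_succ_of_le (Nat.div_le_div_right this.le)
    · intro x hx y hy hxy
      simp only at hxy
      rw [← Nat.div_add_mod x d, ← Nat.div_add_mod y d, hxy, h x hx y hy]
  rwa [card_range] at this

/-- `t` is bad for the root `R` and the prime `l`. -/
def PB (R : Root) (l : ℕ) (t : ℤ) : Prop :=
  (l : ℤ) ∣ t - R.ρ ∧ ∃ N : ℤ, t * (t - 10) * (t - 29) - 600 * R.i = 600 * (l * N) ∧
    ∀ j, 1 ≤ j → 2 * (N % (l : ℤ) ^ j) ≤ (l : ℤ) ^ j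

noncomputable instance (R : Root) (l : ℕ) (t : ℤ) : Decidable (PB R l t) := Classical.dec _

theorem six_dvd (t : ℤ) (ht : t % 600 = 404) : (600 : ℤ) ∣ t * (t - 10) * (t - 29) := by
  obtain ⟨a, ha⟩ : ∃ a, t = 600 * a + 404 := ⟨t / 600, by omega⟩
  refine ⟨(150 * a + 101) * (300 * a + 197) * (8 * a + 5), ?_⟩
  rw [ha]; ring

theorem tt_mod (W x : ℕ) (T : ℤ) (hT : T % 600 = 404) : (600 * (W : ℤ) * x + T) % 600 = 404 := by
  have : 600 * (W : ℤ) * x + T = T + 600 * ((W : ℤ) * x) := by ring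
  rw [this, Int.add_mul_emod_self_left, hT]

theorem cop600 (l : ℕ) (hl : l.Prime) (h5 : 5 < l) : IsCoprime (l : ℤ) 600 := by
  have h1 : Nat.Coprime l 600 := by
    rw [Nat.Prime.coprime_iff_not_dvd hl]
    intro h
    have h2 : l ∣ 2 ^ 3 * 3 * 5 ^ 2 := by norm_num; exact h
    rcases hl.dvd_mul.mp h2 with h3 | h3
    · rcases hl.dvd_mul.mp h3 with h4 | h4
      · have := Nat.le_of_dvd (by norm_num) (hl.dvd_of_dvd_pow h4); omega
      · have := Nat.le_of_dvd (by norm_num) h4; omega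
    · have := Nat.le_of_dvd (by norm_num) (hl.dvd_of_dvd_pow h3); omega
  have := Nat.isCoprime_iff_coprime.mpr h1
  exact_mod_cast this

theorem not_dvd_small (l : ℕ) (a : ℤ) (ha : a ≠ 0) (h : |a| ≤ 650) (hl : 650 < l) :
    ¬ (l : ℤ) ∣ a := by
  intro hd
  have h1 := Int.le_of_dvd (abs_pos.mpr ha) ((dvd_abs _ _).mpr hd)
  omega

/-- The residue class of the values divisible by `d`. -/
theorem same_class (W d x y : ℕ) (T : ℤ) (hd : IsCoprime (d : ℤ) (600 * (W : ℤ)))
    (hx : (d : ℤ) ∣ 600 * (W : ℤ) * x + T) (hy : (d : ℤ) ∣ 600 * (W : ℤ) * y + T) :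
    x % d = y % d := by
  have h1 : (d : ℤ) ∣ 600 * (W : ℤ) * ((y : ℤ) - x) := by
    have := dvd_sub hy hx
    have e : 600 * (W : ℤ) * y + T - (600 * (W : ℤ) * x + T) = 600 * (W : ℤ) * ((y : ℤ) - x) := by
      ring
    rwa [e] at this
  have h2 : (d : ℤ) ∣ (y : ℤ) - x := hd.dvd_of_dvd_mul_left h1
  have h3 : (x : ℤ) % d = (y : ℤ) % d := Int.modEq_iff_dvd.mpr h2
  exact_mod_cast h3

/-- The bad values of `x` embed in the bad values of the block index. -/
theorem block (W : ℕ) (T : ℤ) (hT : T % 600 = 404) (R : Root) (hR : R ∈ roots) (l : ℕ)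
    (hl : l.Prime) (hlW : ¬ l ∣ W) (hl6 : 650 < l) (Z : ℕ) :
    ∃ n0 n1 k2 k3 : ℤ, ¬ (l : ℤ) ∣ n1 ∧ ¬ (l : ℤ) ∣ k2 ∧ ¬ (l : ℤ) ∣ k3 ∧ ∀ J : ℕ,
      ((range Z).filter (fun x : ℕ => PB R l (600 * W * x + T))).card ≤
        ((range (Z / l + 1)).filter (fun y => Bad l J (NN l n0 n1 k2 k3 y))).card := by
  have hlp := Nat.prime_iff_prime_int.mp hl
  have hl0 : (l : ℤ) ≠ 0 := by exact_mod_cast hl.ne_zero
  have hlW' : ¬ (l : ℤ) ∣ (W : ℤ) := fun h => hlW (by exact_mod_cast h)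
  have hcop := cop600 l hl (by omega)
  have hl600 : ¬ (l : ℤ) ∣ 600 := not_dvd_small l 600 (by norm_num) (by norm_num) hl6
  have hcopW : IsCoprime (l : ℤ) (600 * (W : ℤ)) :=
    IsCoprime.mul_right hcop ((Prime.coprime_iff_not_dvd hlp).mpr hlW')
  have h600W : ¬ (l : ℤ) ∣ 600 * (W : ℤ) := fun h => by
    rcases hlp.dvd_or_dvd h with h | h
    · exact hl600 h
    · exact hlW' h
  obtain ⟨ha0, ha1, hc0, hc1, -⟩ := root_bd R hR
  have hla := not_dvd_small l R.a ha0 ha1 hl6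
  have hlc := not_dvd_small l R.c hc0 hc1 hl6
  by_cases hex : ∃ x ∈ range Z, (l : ℤ) ∣ 600 * W * (x : ℕ) + T - R.ρ
  · obtain ⟨x1, hx1, hd1⟩ := hex
    set x0 := x1 % l with hx0
    have hd0 : (l : ℤ) ∣ 600 * W * (x0 : ℕ) + T - R.ρ := by
      have e1 : ((l : ℤ)) * ((x1 / l : ℕ) : ℤ) + (x0 : ℤ) = x1 := by
        exact_mod_cast Nat.div_add_mod x1 l
      have e2 : 600 * (W : ℤ) * (x0 : ℕ) + T - R.ρ =
          (600 * (W : ℤ) * (x1 : ℕ) + T - R.ρ) - l * (600 * W * ((x1 / l : ℕ) : ℤ)) := by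
        rw [← e1]; ring
      rw [e2]
      exact dvd_sub hd1 (Dvd.intro _ rfl)
    obtain ⟨c, hc⟩ := hd0
    have ht0 := tt_mod W x0 T hT
    obtain ⟨n, hn⟩ := six_dvd _ ht0
    have hid := root_id R hR (600 * W * (x0 : ℕ) + T)
    rw [hn, hc] at hid
    have h600 : (600 : ℤ) ∣ (l : ℤ) ^ 2 * c ^ 3 + R.a * l * c ^ 2 + R.c * c := by
      apply hcop.symm.dvd_of_dvd_mul_left
      exact ⟨n - R.i, by linear_combination (-1 : ℤ) * hid⟩
    obtain ⟨n0, hn0⟩ := h600
    refine ⟨n0, W * (l * (3 * l * c ^ 2 + 2 * R.a * c) + R.c), W * (600 * W) * (3 * l * c + R.a),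
      W * (600 * W) ^ 2, ?_, ?_, ?_, ?_⟩
    · intro h
      rcases hlp.dvd_or_dvd h with h | h
      · exact hlW' h
      · exact hlc ((Int.dvd_add_right (Dvd.intro _ rfl)).mp h)
    · intro h
      rcases hlp.dvd_or_dvd h with h | h
      · rcases hlp.dvd_or_dvd h with h | h
        · exact hlW' h
        · exact h600W h
      · have h1 : (l : ℤ) ∣ 3 * l * c := ⟨3 * c, by ring⟩
        exact hla ((Int.dvd_add_right h1).mp h)
    · intro h
      rcases hlp.dvd_or_dvd h with h | h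
      · exact hlW' h
      · exact h600W (hlp.dvd_of_dvd_pow h)
    · intro J
      have hclass : ∀ x : ℕ, PB R l (600 * W * x + T) → x % l = x0 := by
        intro x hx
        have h1 : (l : ℤ) ∣ 600 * (W : ℤ) * x + (T - R.ρ) := by
          have := hx.1
          rwa [add_sub_assoc] at this
        have h2 : (l : ℤ) ∣ 600 * (W : ℤ) * x1 + (T - R.ρ) := by
          rwa [add_sub_assoc] at hd1
        exact same_class W l x x1 _ hcopW h1 h2
      apply Finset.card_le_card_of_injOn (fun x => x / l)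
      · intro x hx
        rw [Finset.mem_coe, mem_filter, mem_range] at hx
        obtain ⟨hxZ, hPB⟩ := hx
        have hxc := hclass x hPB
        rw [Finset.mem_coe, mem_filter, mem_range]
        refine ⟨Nat.lt_succ_of_le (Nat.div_le_div_right hxZ.le), ?_⟩
        obtain ⟨-, N, hN1, hN2⟩ := hPB
        have hxx : (x : ℤ) = x0 + l * ((x / l : ℕ) : ℤ) := by
          have := Nat.div_add_mod x l
          rw [hxc] at this
          have h2 : ((l * (x / l) + x0 : ℕ) : ℤ) = (x : ℤ) := by exact_mod_cast this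
          push_cast at h2 ⊢
          linarith
        have hs : 600 * (W : ℤ) * x + T - R.ρ = l * (c + 600 * W * ((x / l : ℕ) : ℤ)) := by
          rw [hxx]
          linear_combination hc
        have hid2 := root_id R hR (600 * W * (x : ℕ) + T)
        rw [hN1, hs] at hid2
        have hN3 : 600 * N = (l : ℤ) ^ 2 * (c + 600 * W * ((x / l : ℕ) : ℤ)) ^ 3 +
            R.a * l * (c + 600 * W * ((x / l : ℕ) : ℤ)) ^ 2 +
            R.c * (c + 600 * W * ((x / l : ℕ) : ℤ)) := by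
          have : (l : ℤ) * (600 * N) = l * ((l : ℤ) ^ 2 * (c + 600 * W * ((x / l : ℕ) : ℤ)) ^ 3 +
            R.a * l * (c + 600 * W * ((x / l : ℕ) : ℤ)) ^ 2 +
            R.c * (c + 600 * W * ((x / l : ℕ) : ℤ))) := by
            linear_combination hid2
          exact mul_left_cancel₀ hl0 this
        have hN4 := nn_form R W l c n0 hn0.symm (x / l) N hN3
        intro j hj1 hj2
        unfold NN
        rw [← hN4]
        exact hN2 j hj1
      · intro x hx y hy hxy
        rw [Finset.mem_coe, mem_filter] at hx hy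
        simp only at hxy
        rw [← Nat.div_add_mod x l, ← Nat.div_add_mod y l, hxy, hclass x hx.2, hclass y hy.2]
  · push Not at hex
    have h1 : ¬ (l : ℤ) ∣ 1 := by
      intro h
      have := Int.le_of_dvd one_pos h
      omega
    refine ⟨0, 1, 1, 1, h1, h1, h1, fun J => ?_⟩
    have : (range Z).filter (fun x : ℕ => PB R l (600 * W * x + T)) = ∅ := by
      rw [Finset.filter_eq_empty_iff]
      intro x hx hP
      exact hex x hx hP.1
    rw [this, card_empty]
    exact Nat.zero_le _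

/-- **The deterministic range.** -/
theorem no_bad (R : Root) (hR : R ∈ roots) (l : ℕ) (hl : l.Prime) (hl6 : 650 < l) (t : ℤ)
    (ht : t % 600 = 404) (ht0 : 30 ≤ t) (h : 65 * t ≤ 2 * (l : ℤ) ^ 2) : ¬ PB R l t := by
  rintro ⟨⟨m, hm⟩, N, hN1, hN2⟩
  obtain ⟨-, -, -, -, -, hρ0, hρ⟩ := root_bd R hR
  have hl0 : (0 : ℤ) < l := by exact_mod_cast hl.pos
  have hm0 : 0 ≤ m := by
    have : 0 ≤ (l : ℤ) * m := by rw [← hm]; linarith
    exact nonneg_of_mul_nonneg_right this hl0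
  have hml : 65 * m ≤ 2 * (l : ℤ) := by
    have h1 : 65 * ((l : ℤ) * m) ≤ 2 * (l : ℤ) ^ 2 := by rw [← hm]; linarith
    have h2 : (l : ℤ) * (65 * m) ≤ l * (2 * l) := by nlinarith
    exact le_of_mul_le_mul_left h2 hl0
  have hid := root_id R hR t
  rw [hN1, hm] at hid
  have hN3 : 600 * N = (l : ℤ) ^ 2 * m ^ 3 + R.a * l * m ^ 2 + R.c * m := by
    have : (l : ℤ) * (600 * N) = l * ((l : ℤ) ^ 2 * m ^ 3 + R.a * l * m ^ 2 + R.c * m) := by
      linear_combination hid
    exact mul_left_cancel₀ hl0.ne' this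
  have h1 := det_digit R hR l m t N (cop600 l hl (by omega)) hl0 ht hm hm0 hml hN3
  have h2 := hN2 1 le_rfl
  rw [pow_one] at h2
  linarith

end Pool.Agent.H34.Rud
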