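import Mathlib
import Pool.Agent.H34.Rud.Block

set_option autoImplicit false

/-!
# Good values give divisibilities
-/

namespace Pool.Agent.H34.Rud

open Finset

/-- The value of `n` at `t = 600 a + 404`. -/
def na (a : ℕ) : ℕ := (150 * a + 101) * (300 * a + 197) * (8 * a + 5)

/-- The shift: `n + mm q` is divisible by `a + q + 2`. -/
def mm (q : ℕ) : ℕ := (150 * q + 199) * (300 * q + 403) * (8 * q + 11)

theorem na_t (a : ℕ) : (600 * (na a : ℤ)) =
    (600 * (a : ℤ) + 404) * ((600 * (a : ℤ) + 404) - 10) * ((600 * (a : ℤ) + 404) - 29) := by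
  unfold na
  push_cast
  ring

theorem dvd_na_mm (q a : ℕ) : a + (q + 2) ∣ na a + mm q := by
  have : ((a + (q + 2) : ℕ) : ℤ) ∣ ((na a + mm q : ℕ) : ℤ) := by
    unfold na mm
    push_cast
    refine ⟨360000 * ((a : ℤ) ^ 2 - a * (q + 2) + (q + 2) ^ 2) + 703800 * (a - (q + 2)) + 458426, ?_⟩
    ring
  exact_mod_cast this

theorem exists_root (l : ℕ) (hl : l.Prime) (hl6 : 650 < l) (a i : ℕ) (hi : i < 2)
    (h : na a % l = i) : ∃ R ∈ roots, R.i = i ∧ (l : ℤ) ∣ (600 * (a : ℤ) + 404) - R.ρ := by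
  have hlp := Nat.prime_iff_prime_int.mp hl
  have h1 : (l : ℤ) ∣ (na a : ℤ) - i := by
    have : i ≡ na a [MOD l] := by
      unfold Nat.ModEq
      rw [h, Nat.mod_eq_of_lt (by omega)]
    exact (Nat.modEq_iff_dvd.mp this)
  have h2 : (l : ℤ) ∣ 600 * (na a : ℤ) - 600 * i := by
    have : 600 * (na a : ℤ) - 600 * i = 600 * ((na a : ℤ) - i) := by ring
    rw [this]
    exact Dvd.dvd.mul_left h1 _
  rw [na_t] at h2
  interval_cases i
  · have h3 : (l : ℤ) ∣ (600 * (a : ℤ) + 404) * ((600 * (a : ℤ) + 404) - 10) *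
        ((600 * (a : ℤ) + 404) - 29) := by simpa using h2
    rcases hlp.dvd_or_dvd h3 with h3 | h3
    · rcases hlp.dvd_or_dvd h3 with h3 | h3
      · exact ⟨⟨0, 0, -39, 290⟩, by simp [roots], rfl, by simpa using h3⟩
      · exact ⟨⟨10, 0, -9, -190⟩, by simp [roots], rfl, h3⟩
    · exact ⟨⟨29, 0, 48, 551⟩, by simp [roots], rfl, h3⟩
  · have h3 : (l : ℤ) ∣ ((600 * (a : ℤ) + 404) - 4) * ((600 * (a : ℤ) + 404) - 5) *
        ((600 * (a : ℤ) + 404) - 30) := by
      convert h2 using 1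
      push_cast
      ring
    rcases hlp.dvd_or_dvd h3 with h3 | h3
    · rcases hlp.dvd_or_dvd h3 with h3 | h3
      · exact ⟨⟨4, 1, -27, 26⟩, by simp [roots], rfl, h3⟩
      · exact ⟨⟨5, 1, -24, -25⟩, by simp [roots], rfl, h3⟩
    · exact ⟨⟨30, 1, 51, 650⟩, by simp [roots], rfl, h3⟩

/-- Digits of `n = i + l N`. -/
theorem mod_succ (n i N l j : ℕ) (hn : n = i + l * N) (hi : i < l) :
    n % l ^ (j + 1) = i + l * (N % l ^ j) := by
  have hl : 0 < l := by omega
  have h1 := Nat.div_add_mod N (l ^ j)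
  have h2 := Nat.mod_lt N (pow_pos hl j)
  have h3 : n = i + l * (N % l ^ j) + l ^ (j + 1) * (N / l ^ j) := by
    rw [hn]
    conv_lhs => rw [← h1]
    ring
  rw [h3, Nat.add_mul_mod_self_left, Nat.mod_eq_of_lt]
  rw [pow_succ]
  have h4 : N % l ^ j + 1 ≤ l ^ j := h2
  have h5 : l * (N % l ^ j + 1) ≤ l * l ^ j := Nat.mul_le_mul_left _ h4
  rw [mul_comm (l ^ j) l]
  nlinarith

theorem good_large (q a l : ℕ) (hl : l.Prime) (hl6 : 650 < l) (hlq : 2 * q + 8 ≤ l)
    (hPB : ∀ R ∈ roots, ¬ PB R l (600 * (a : ℤ) + 404))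
    (hsq : ∀ R ∈ roots, ¬ (l : ℤ) ^ 2 ∣ (600 * (a : ℤ) + 404) - R.ρ) :
    2 ≤ na a % l ∨ (na a % l < 2 ∧ 2 ≤ na a % l ^ 2 ∧ Good q (na a) l) := by
  rcases Nat.lt_or_ge (na a % l) 2 with h | h
  · right
    refine ⟨h, ?_⟩
    obtain ⟨R, hR, hRi, hd⟩ := exists_root l hl hl6 a _ h rfl
    set i := na a % l with hi
    set N := na a / l with hN
    have hn : na a = i + l * N := by
      have := Nat.div_add_mod (na a) l
      rw [hi, hN]
      linarith
    have hlp := Nat.prime_iff_prime_int.mp hl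
    have hcop := cop600 l hl (by omega)
    have hid := root_id R hR (600 * (a : ℤ) + 404)
    have hnz : (600 * (a : ℤ) + 404) * ((600 * (a : ℤ) + 404) - 10) * ((600 * (a : ℤ) + 404) - 29) -
        600 * R.i = 600 * (l * (N : ℤ)) := by
      rw [← na_t, hRi]
      have : (na a : ℤ) = i + l * N := by exact_mod_cast hn
      rw [this]
      ring
    constructor
    · -- `n` is neither `0` nor `1` modulo `l ^ 2`
      by_contra hcon
      push Not at hcon
      have h1 := mod_succ (na a) i N l 1 hn (by omega)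
      rw [pow_one] at h1
      rw [h1] at hcon
      have h2 : N % l = 0 := by
        by_contra h3
        have h4 : 1 ≤ N % l := Nat.pos_of_ne_zero h3
        have h5 : l * 1 ≤ l * (N % l) := Nat.mul_le_mul_left _ h4
        omega
      obtain ⟨M, hM⟩ := Nat.dvd_of_mod_eq_zero h2
      rw [hnz, hM] at hid
      obtain ⟨-, -, hc0, hc1, -⟩ := root_bd R hR
      have hlc := not_dvd_small l R.c hc0 hc1 hl6
      set s := (600 * (a : ℤ) + 404) - R.ρ with hs
      apply hsq R hR
      have h3 : (l : ℤ) ^ 2 ∣ s * (s ^ 2 + R.a * s + R.c) := by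
        refine ⟨600 * M, ?_⟩
        push_cast at hid
        linear_combination (-1 : ℤ) * hid
      have h4 : IsCoprime ((l : ℤ) ^ 2) (s ^ 2 + R.a * s + R.c) := by
        apply IsCoprime.pow_left
        rw [Prime.coprime_iff_not_dvd hlp]
        intro h5
        have h6 : (l : ℤ) ∣ s ^ 2 + R.a * s := by
          have : s ^ 2 + R.a * s = s * (s + R.a) := by ring
          rw [this]
          exact Dvd.dvd.mul_right hd _
        exact hlc ((Int.dvd_add_right h6).mp h5)
      exact h4.dvd_of_dvd_mul_right h3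
    · have h1 := hPB R hR
      unfold PB at h1
      push Not at h1
      obtain ⟨j, hj1, hj2⟩ := h1 hd N hnz
      have hj3 : l ^ j < 2 * (N % l ^ j) := by exact_mod_cast hj2
      refine ⟨j + 1, by omega, ?_⟩
      rw [mod_succ (na a) i N l j hn (by omega)]
      have h2 := Nat.mod_lt N (pow_pos hl.pos j)
      have h4 : l ^ j + 1 ≤ 2 * (N % l ^ j) := hj3
      have h5 : l * (l ^ j + 1) ≤ l * (2 * (N % l ^ j)) := Nat.mul_le_mul_left _ h4
      have h6 : N % l ^ j + 1 ≤ l ^ j := h2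
      have h7 : l * (N % l ^ j + 1) ≤ l * l ^ j := Nat.mul_le_mul_left _ h6
      have e1 : l ^ (j + 1) = l * l ^ j := by rw [pow_succ, mul_comm]
      have e2 : l * (l ^ j + 1) = l * l ^ j + l := by ring
      have e3 : l * (N % l ^ j + 1) = l * (N % l ^ j) + l := by ring
      have e4 : l * (2 * (N % l ^ j)) = 2 * (l * (N % l ^ j)) := by ring
      rw [e1]
      omega
  · exact Or.inl h

/-- **Good values give divisibilities.** -/
theorem good_dvd (q Y E W x a : ℕ) (hY : 650 ≤ Y) (hYq : 2 * q + 8 ≤ Y)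
    (hE : (2 * mm q + 2 * q + 8) * (q + 8) ≤ E) (hW : W = Y.factorial ^ E)
    (ha : a + (q + 2) = W * (x + 1))
    (hPB : ∀ l : ℕ, l.Prime → Y < l → ∀ R ∈ roots, ¬ PB R l (600 * (a : ℤ) + 404))
    (hsq : ∀ l : ℕ, l.Prime → Y < l → ∀ R ∈ roots, ¬ (l : ℤ) ^ 2 ∣ (600 * (a : ℤ) + 404) - R.ρ)
    (ham : mm q ≤ na a) :
    (na a).factorial * (na a + q).factorial ∣ (2 * na a - 4).factorial := by
  have hqm : q < mm q := by
    unfold mm
    have h1 : q < 150 * q + 199 := by omega
    have h2 : 0 < (300 * q + 403) * (8 * q + 11) := by positivity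
    calc q < 150 * q + 199 := h1
      _ ≤ (150 * q + 199) * ((300 * q + 403) * (8 * q + 11)) := Nat.le_mul_of_pos_right _ h2
      _ = (150 * q + 199) * (300 * q + 403) * (8 * q + 11) := by ring
  apply dvd_of_sums
  intro l hl b hb
  rcases Nat.lt_or_ge Y l with h | h
  · exact large_prime q (na a) l hl (by omega)
      (good_large q a l hl (by omega) (by omega) (hPB l hl h) (hsq l hl h)) b hb
  · have h1 : l ^ E ∣ na a + mm q := by
      refine dvd_trans ?_ (dvd_na_mm q a)
      rw [ha, hW]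
      apply Dvd.dvd.mul_right
      exact pow_dvd_pow_of_dvd ((Nat.Prime.dvd_factorial hl).mpr h) E
    have h2 : E < b := by
      have h3 : l ^ E ≤ na a + mm q := Nat.le_of_dvd (by omega) h1
      have h4 : E < 2 ^ E := Nat.lt_two_pow_self
      have h5 : 2 ^ E ≤ l ^ E := Nat.pow_le_pow_left hl.two_le E
      omega
    exact small_prime q (na a) l (mm q) E hl hqm hE h1 b h2

end Pool.Agent.H34.Rud
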