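import Mathlib

set_option autoImplicit false

/-!
# Sums of reciprocals of primes

Upper bounds with the Chebyshev constant `log 4`.
-/

namespace Pool.Agent.H34.Rud

open Finset Real

theorem theta_succ (b : ℕ) : Chebyshev.theta ((b + 1 : ℕ) : ℝ) =
    Chebyshev.theta (b : ℝ) + (if (b + 1).Prime then log ((b + 1 : ℕ) : ℝ) else 0) := by
  unfold Chebyshev.theta
  rw [Nat.floor_natCast, Nat.floor_natCast]
  have e1 : Ioc 0 (b + 1) = insert (b + 1) (Ioc 0 b) := by
    ext x; simp only [mem_Ioc, mem_insert]; omega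
  rw [e1, Finset.filter_insert]
  by_cases hp : (b + 1).Prime
  · rw [if_pos hp, if_pos hp, Finset.sum_insert (by simp), add_comm]
  · rw [if_neg hp, if_neg hp, add_zero]

/-- Chebyshev upper bound for `∑ log p / p` over an interval (Abel summation). -/
theorem sum_log_div (a b : ℕ) (hab : a ≤ b) :
    ∑ p ∈ Ioc a b with p.Prime, log p / p ≤
      Chebyshev.theta b / (b + 1) - Chebyshev.theta a / (a + 1) +
        log 4 * ∑ n ∈ Ioc a b, 1 / ((n : ℝ) + 1) := by
  induction b, hab using Nat.le_induction with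
  | base => simp
  | succ b hab ih =>
    have e1 : Ioc a (b + 1) = insert (b + 1) (Ioc a b) := by
      ext x; simp only [mem_Ioc, mem_insert]; omega
    have e2 : (b + 1) ∉ Ioc a b := by simp
    rw [e1, Finset.filter_insert, Finset.sum_insert e2, theta_succ]
    have hb : (0 : ℝ) < (b : ℝ) + 1 := by positivity
    have hb2 : (0 : ℝ) < (b : ℝ) + 2 := by positivity
    have hθ := Chebyshev.theta_le_log4_mul_x (x := ((b + 1 : ℕ) : ℝ)) (by positivity)
    rw [theta_succ] at hθ
    push_cast at hθ ⊢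
    have key : ∀ T s : ℝ, T + s ≤ log 4 * ((b : ℝ) + 1) →
        s / ((b : ℝ) + 1) + T / ((b : ℝ) + 1) ≤ (T + s) / ((b : ℝ) + 1 + 1) +
          log 4 * (1 / ((b : ℝ) + 1 + 1)) := by
      intro T s h
      have : (T + s) / ((b : ℝ) + 1 + 1) + log 4 * (1 / ((b : ℝ) + 1 + 1)) -
          (s / ((b : ℝ) + 1) + T / ((b : ℝ) + 1)) =
          (log 4 * ((b : ℝ) + 1) - (T + s)) / (((b : ℝ) + 1) * ((b : ℝ) + 1 + 1)) := by
        field_simp
        ring
      have h2 : 0 ≤ (log 4 * ((b : ℝ) + 1) - (T + s)) / (((b : ℝ) + 1) * ((b : ℝ) + 1 + 1)) := by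
        apply div_nonneg
        · linarith
        · positivity
      linarith
    by_cases hp : (b + 1).Prime
    · rw [if_pos hp] at hθ ⊢
      rw [if_pos hp, Finset.sum_insert (by simp)]
      have := key _ _ hθ
      push_cast
      rw [mul_add]
      linarith
    · rw [if_neg hp] at hθ ⊢
      rw [if_neg hp]
      have := key _ _ hθ
      rw [mul_add]
      simp only [zero_div, zero_add, add_zero] at this ⊢
      linarith

theorem sum_inv_le (a b : ℕ) (hab : a ≤ b) :
    ∑ n ∈ Ioc a b, 1 / ((n : ℝ) + 1) ≤ log (((b : ℝ) + 1) / ((a : ℝ) + 1)) := by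
  induction b, hab using Nat.le_induction with
  | base => simp [div_self (show (a : ℝ) + 1 ≠ 0 by positivity)]
  | succ b hab ih =>
    have e1 : Ioc a (b + 1) = insert (b + 1) (Ioc a b) := by
      ext x; simp only [mem_Ioc, mem_insert]; omega
    have e2 : (b + 1) ∉ Ioc a b := by simp
    rw [e1, Finset.sum_insert e2]
    have hb : (0 : ℝ) < (b : ℝ) + 1 := by positivity
    have ha : (0 : ℝ) < (a : ℝ) + 1 := by positivity
    have h1 := Real.one_sub_inv_le_log_of_pos (x := ((b : ℝ) + 1 + 1) / ((b : ℝ) + 1)) (by positivity)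
    have h2 : 1 - (((b : ℝ) + 1 + 1) / ((b : ℝ) + 1))⁻¹ = 1 / ((b : ℝ) + 1 + 1) := by
      field_simp
      ring
    rw [h2] at h1
    push_cast
    have h3 : log (((b : ℝ) + 1 + 1) / ((a : ℝ) + 1)) =
        log (((b : ℝ) + 1 + 1) / ((b : ℝ) + 1)) + log (((b : ℝ) + 1) / ((a : ℝ) + 1)) := by
      rw [← Real.log_mul (by positivity) (by positivity)]
      congr 1
      field_simp
    rw [h3]
    linarith

/-- Reciprocals of primes with logarithm in `[u, v]`. -/
theorem sum_inv_primes (S : Finset ℕ) (u v : ℝ) (hu : 0 < u) (huv : u ≤ v)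
    (hS : ∀ p ∈ S, p.Prime ∧ u ≤ log p ∧ log p ≤ v) :
    ∑ p ∈ S, 1 / (p : ℝ) ≤ log 4 * (v - u + 2) / u := by
  set a := ⌈exp u⌉₊ - 1 with ha
  set b := ⌊exp v⌋₊ with hb
  have hau : exp u ≤ (a : ℝ) + 1 := by
    have h1 : 1 ≤ ⌈exp u⌉₊ := Nat.one_le_ceil_iff.mpr (exp_pos u)
    have h2 : ((⌈exp u⌉₊ - 1 : ℕ) : ℝ) + 1 = (⌈exp u⌉₊ : ℝ) := by
      rw [Nat.cast_sub h1]; push_cast; ring
    rw [ha, h2]
    exact Nat.le_ceil _
  have hbv : (b : ℝ) ≤ exp v := Nat.floor_le (exp_pos v).le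
  have hpa : ∀ p ∈ S, p ∈ Ioc a b := by
    intro p hp
    obtain ⟨h1, h2, h3⟩ := hS p hp
    have hp0 : (0 : ℝ) < p := by exact_mod_cast h1.pos
    rw [mem_Ioc]
    constructor
    · have h4 : exp u ≤ p := by rw [← Real.le_log_iff_exp_le hp0]; exact h2
      have h5 : ⌈exp u⌉₊ ≤ p := Nat.ceil_le.mpr h4
      have h6 := h1.pos
      omega
    · have h4 : (p : ℝ) ≤ exp v := by rw [← Real.log_le_iff_le_exp hp0]; exact h3
      exact Nat.le_floor h4
  rcases S.eq_empty_or_nonempty with h0 | ⟨p0, hp0⟩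
  · rw [h0, Finset.sum_empty]
    have : 0 ≤ log (4 : ℝ) := log_nonneg (by norm_num)
    apply div_nonneg _ hu.le
    apply mul_nonneg this
    linarith
  have hab : a ≤ b := by
    have := hpa p0 hp0
    rw [mem_Ioc] at this
    omega
  have hlog4 : 0 ≤ log (4 : ℝ) := log_nonneg (by norm_num)
  have h1 : ∑ p ∈ S, log p / (p : ℝ) ≤ ∑ p ∈ Ioc a b with p.Prime, log p / p := by
    apply Finset.sum_le_sum_of_subset_of_nonneg
    · intro p hp
      rw [Finset.mem_filter]
      exact ⟨hpa p hp, (hS p hp).1⟩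
    · intro p _ _
      exact div_nonneg (Real.log_natCast_nonneg p) (Nat.cast_nonneg p)
  have h2 := sum_log_div a b hab
  have h3 := sum_inv_le a b hab
  have h4 : Chebyshev.theta b / (b + 1) ≤ log 4 := by
    rw [div_le_iff₀ (by positivity)]
    have := Chebyshev.theta_le_log4_mul_x (x := (b : ℝ)) (by positivity)
    nlinarith
  have h5 : 0 ≤ Chebyshev.theta a / ((a : ℝ) + 1) :=
    div_nonneg (Chebyshev.theta_nonneg _) (by positivity)
  have h6 : log (((b : ℝ) + 1) / ((a : ℝ) + 1)) ≤ v - u + 1 := by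
    have hv1 : (1 : ℝ) ≤ exp v := Real.one_le_exp (by linarith)
    have h7 : ((b : ℝ) + 1) / ((a : ℝ) + 1) ≤ (exp v * exp 1) / exp u := by
      apply div_le_div₀ (by positivity) _ (exp_pos u) hau
      have h8 : (2 : ℝ) ≤ exp 1 := by
        have := Real.add_one_le_exp (1 : ℝ)
        linarith
      nlinarith
    have h9 : (exp v * exp 1) / exp u = exp (v - u + 1) := by
      rw [← Real.exp_add, ← Real.exp_sub]
      congr 1
      ring
    rw [h9] at h7
    calc log (((b : ℝ) + 1) / ((a : ℝ) + 1)) ≤ log (exp (v - u + 1)) :=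
          Real.log_le_log (by positivity) h7
      _ = v - u + 1 := Real.log_exp _
  have h10 : ∑ p ∈ S, log p / (p : ℝ) ≤ log 4 * (v - u + 2) := by
    have := mul_le_mul_of_nonneg_left (h3.trans h6) hlog4
    nlinarith
  rw [le_div_iff₀ hu, Finset.sum_mul]
  refine le_trans (Finset.sum_le_sum fun p hp => ?_) h10
  obtain ⟨h1, h2, h3⟩ := hS p hp
  have hp0 : (0 : ℝ) < p := by exact_mod_cast h1.pos
  rw [one_div, div_eq_inv_mul]
  exact mul_le_mul_of_nonneg_left h2 (by positivity)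

end Pool.Agent.H34.Rud
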