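import Mathlib
import Pool.Agent.H34.Rud.GoodX
import Pool.Agent.H34.Rud.Primes

set_option autoImplicit false

/-!
# The count of the bad values for one prime
-/

namespace Pool.Agent.H34.Rud

open Finset Real

/-- The proportion of bad values at the primes with `l ^ K ≤ Z < l ^ (K + 1)`. -/
noncomputable def ww (K : ℕ) : ℝ :=
  if K ≤ 14 then (51 / 100) ^ (K + 1) + 1 / 100000 else 2 * (51 / 100) ^ (K - 1)

theorem ww_nonneg (K : ℕ) : 0 ≤ ww K := by
  unfold ww
  split_ifs <;> positivity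

theorem cnt_ab : ∃ A l0 : ℕ, 0 < A ∧ ∀ (W : ℕ) (T : ℤ), T % 600 = 404 → ∀ R ∈ roots, ∀ l : ℕ,
    l.Prime → l0 ≤ l → ¬ l ∣ W → 650 < l → ∀ Z' : ℕ, 2 ≤ Nat.log l Z' →
    (((range (A * Z')).filter (fun x : ℕ => PB R l (600 * W * x + T))).card : ℝ) ≤
      ww (Nat.log l Z') * ((A * Z' / l + 1 : ℕ) : ℝ) := by
  obtain ⟨A, l0, hA, h⟩ := weyl_count (51 / 100) (1 / 100000) (by norm_num) (by norm_num) 14
  refine ⟨A, l0, hA, ?_⟩
  intro W T hT R hR l hl hl0 hlW hl6 Z' hK
  obtain ⟨n0, n1, k2, k3, h1, h2, h3, h4⟩ := block W T hT R hR l hl hlW hl6 (A * Z')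
  set K := Nat.log l Z' with hKd
  set X := A * Z' / l + 1 with hX
  have hZ' : Z' ≠ 0 := by
    rintro rfl
    rw [Nat.log_zero_right] at hKd
    omega
  have hpow : l ^ K ≤ Z' := Nat.pow_log_le_self l hZ'
  have hlK : l ^ K = l ^ (K - 1) * l := by
    rw [← pow_succ]
    congr 1
    omega
  have hAX : A * l ^ (K - 1) ≤ X := by
    have : A * l ^ (K - 1) ≤ A * Z' / l := by
      rw [Nat.le_div_iff_mul_le hl.pos, mul_assoc, ← hlK]
      exact Nat.mul_le_mul_left _ hpow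
    omega
  by_cases hK14 : K ≤ 14
  · have h5 := h4 (K + 1)
    have h6 := h l hl hl0 K hK hK14 X hAX n0 n1 k2 k3 h1 h2 h3
    rw [ww, if_pos hK14]
    calc _ ≤ (((range X).filter (fun y => Bad l (K + 1) (NN l n0 n1 k2 k3 y))).card : ℝ) := by
          exact_mod_cast h5
      _ ≤ _ := h6
  · rw [ww, if_neg hK14]
    have h5 := h4 (K - 1)
    have h6 := exact_count l hl (K - 1) X n0 n1 k2 k3 h1
    have h7 : (((range (A * Z')).filter (fun x : ℕ => PB R l (600 * W * x + T))).card : ℝ) ≤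
        ((X / l ^ (K - 1) : ℕ) + 1 : ℝ) * ((l / 2 : ℕ) + 1 : ℝ) ^ (K - 1) := by
      exact_mod_cast h5.trans h6
    refine h7.trans ?_
    have hl' : (0 : ℝ) < l := by exact_mod_cast hl.pos
    have h8 : (((l / 2 : ℕ) : ℝ) + 1) ≤ 51 / 100 * l := by
      have e1 : ((l / 2 : ℕ) : ℝ) ≤ (l : ℝ) / 2 := Nat.cast_div_le
      have e2 : (650 : ℝ) < l := by exact_mod_cast hl6
      linarith
    have h9 : (((X / l ^ (K - 1) : ℕ) : ℝ) + 1) ≤ 2 * X / (l : ℝ) ^ (K - 1) := by
      have e1 : ((X / l ^ (K - 1) : ℕ) : ℝ) ≤ (X : ℝ) / ((l ^ (K - 1) : ℕ) : ℝ) := Nat.cast_div_le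
      push_cast at e1
      have e2 : (1 : ℝ) ≤ (X : ℝ) / (l : ℝ) ^ (K - 1) := by
        rw [le_div_iff₀ (by positivity), one_mul]
        have : l ^ (K - 1) ≤ X := le_trans (Nat.le_mul_of_pos_left _ hA) hAX
        exact_mod_cast this
      have e3 : 2 * X / (l : ℝ) ^ (K - 1) = (X : ℝ) / (l : ℝ) ^ (K - 1) + (X : ℝ) / (l : ℝ) ^ (K - 1) := by
        ring
      rw [e3]
      linarith
    calc ((X / l ^ (K - 1) : ℕ) + 1 : ℝ) * ((l / 2 : ℕ) + 1 : ℝ) ^ (K - 1)
        ≤ (2 * X / (l : ℝ) ^ (K - 1)) * (51 / 100 * l) ^ (K - 1) :=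
          mul_le_mul h9 (pow_le_pow_left₀ (by positivity) h8 _) (by positivity) (by positivity)
      _ = 2 * (51 / 100) ^ (K - 1) * X := by
          rw [mul_pow]
          field_simp

theorem cnt_le (W : ℕ) (T : ℤ) (R : Root) (l : ℕ) (hcop : IsCoprime (l : ℤ) (600 * (W : ℤ)))
    (Z : ℕ) : ((range Z).filter (fun x : ℕ => PB R l (600 * W * x + T))).card ≤ Z / l + 1 := by
  apply card_class Z l _ (Finset.filter_subset _ _)
  intro x hx y hy
  rw [mem_filter] at hx hy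
  have h1 := hx.2.1
  have h2 := hy.2.1
  rw [add_sub_assoc] at h1 h2
  exact same_class W l x y _ hcop h1 h2

/-- The sum of `1 / l` over the primes with `log_l Z = K`. -/
theorem class_sum (S : Finset ℕ) (Z K : ℕ) (hK : 1 ≤ K) (hZ : 1 < Z)
    (hS : ∀ l ∈ S, l.Prime ∧ Nat.log l Z = K) :
    ∑ l ∈ S, 1 / (l : ℝ) ≤ log 4 * (1 / K + 2 * (K + 1) / log Z) := by
  have hL : 0 < log (Z : ℝ) := Real.log_pos (by exact_mod_cast hZ)
  have hK0 : (0 : ℝ) < K := by exact_mod_cast hK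
  have h1 := sum_inv_primes S (log Z / (K + 1)) (log Z / K) (by positivity)
    (by apply div_le_div_of_nonneg_left hL.le hK0; linarith) (by
      intro l hl
      obtain ⟨h1, h2⟩ := hS l hl
      have hl1 : (1 : ℝ) < l := by exact_mod_cast h1.one_lt
      have hlog : 0 < log (l : ℝ) := Real.log_pos hl1
      refine ⟨h1, ?_, ?_⟩
      · rw [div_le_iff₀ (by positivity)]
        have h3 : Z < l ^ (K + 1) := by
          rw [← h2]; exact Nat.lt_pow_succ_log_self h1.one_lt Z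
        have h4 : (Z : ℝ) ≤ (l : ℝ) ^ (K + 1) := by exact_mod_cast h3.le
        have h5 := Real.log_le_log (by exact_mod_cast (by omega : 0 < Z)) h4
        rw [Real.log_pow] at h5
        push_cast at h5
        linarith
      · rw [le_div_iff₀ hK0]
        have h3 : l ^ K ≤ Z := by
          rw [← h2]; exact Nat.pow_log_le_self l (by omega)
        have h4 : (l : ℝ) ^ K ≤ Z := by exact_mod_cast h3
        have h5 := Real.log_le_log (by positivity) h4
        rw [Real.log_pow] at h5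
        linarith)
  refine h1.trans (le_of_eq ?_)
  field_simp
  ring

end Pool.Agent.H34.Rud
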