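import Mathlib
import Pool.Agent.H34.Rud.Cnt

set_option autoImplicit false

/-!
# The count of the bad values for one root
-/

namespace Pool.Agent.H34.Rud

open Finset Real

theorem numeric : ∑ K ∈ Icc 2 14, ww K * (13863 / 10000 * (1 / (K : ℝ) + 1 / 10000)) ≤
    14384 / 100000 := by
  have e : Icc 2 14 = ({2, 3, 4, 5, 6, 7, 8, 9, 10, 11, 12, 13, 14} : Finset ℕ) := by decide
  rw [e]
  simp only [ww]
  norm_num

theorem tail_sum (M : ℕ) : ∑ K ∈ Ioc 14 (14 + M), ww K + 2 * (51 / 100) ^ (14 + M) * (100 / 49) =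
    2 * (51 / 100 : ℝ) ^ 14 * (100 / 49) := by
  induction M with
  | zero => simp
  | succ M ih =>
    have e1 : Ioc 14 (14 + (M + 1)) = insert (14 + (M + 1)) (Ioc 14 (14 + M)) := by
      ext x; simp only [mem_Ioc, mem_insert]; omega
    have e2 : 14 + (M + 1) ∉ Ioc 14 (14 + M) := by simp
    rw [e1, Finset.sum_insert e2, ← ih]
    have e3 : ww (14 + (M + 1)) = 2 * (51 / 100) ^ (14 + M) := by
      unfold ww
      rw [if_neg (by omega)]
      congr 2
    rw [e3, show 14 + (M + 1) = (14 + M) + 1 by ring, pow_succ]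
    ring

theorem log4_le : log (4 : ℝ) ≤ 13863 / 10000 := by
  have h1 : log (4 : ℝ) = 2 * log 2 := by
    rw [show (4 : ℝ) = 2 ^ 2 by norm_num, Real.log_pow]
    norm_num
  have h2 := Real.log_two_lt_d9
  rw [h1]
  linarith

theorem small_classes (S : Finset ℕ) (Z : ℕ) (hZ : 1 < Z) (hL : 300000 ≤ log (Z : ℝ))
    (hS : ∀ l ∈ S, l.Prime ∧ 1000 < l ∧ 2 ≤ Nat.log l Z) :
    ∑ l ∈ S, ww (Nat.log l Z) * (1 / (l : ℝ)) ≤ 14521 / 100000 := by
  have hmaps : ∀ l ∈ S, Nat.log l Z ∈ Icc 2 (14 + Z) := by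
    intro l hl
    rw [mem_Icc]
    refine ⟨(hS l hl).2.2, ?_⟩
    exact (Nat.log_le_self l Z).trans (by omega)
  rw [← Finset.sum_fiberwise_of_maps_to hmaps]
  have e1 : Icc 2 (14 + Z) = Icc 2 14 ∪ Ioc 14 (14 + Z) := by
    ext x; simp only [mem_Icc, mem_union, mem_Ioc]; omega
  have e2 : Disjoint (Icc 2 14) (Ioc 14 (14 + Z)) := by
    rw [Finset.disjoint_left]
    intro x hx hy
    rw [mem_Icc] at hx
    rw [mem_Ioc] at hy
    omega
  rw [e1, Finset.sum_union e2]
  have hL0 : 0 < log (Z : ℝ) := by linarith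
  have hlog4 : 0 ≤ log (4 : ℝ) := log_nonneg (by norm_num)
  have hinner : ∀ K, ∑ l ∈ S with Nat.log l Z = K, ww (Nat.log l Z) * (1 / (l : ℝ)) =
      ww K * ∑ l ∈ S with Nat.log l Z = K, 1 / (l : ℝ) := by
    intro K
    rw [Finset.mul_sum]
    apply Finset.sum_congr rfl
    intro l hl
    rw [mem_filter] at hl
    rw [hl.2]
  simp_rw [hinner]
  have h1 : ∑ K ∈ Icc 2 14, ww K * ∑ l ∈ S with Nat.log l Z = K, 1 / (l : ℝ) ≤ 14384 / 100000 := by
    refine le_trans (Finset.sum_le_sum fun K hK => ?_) numeric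
    rw [mem_Icc] at hK
    apply mul_le_mul_of_nonneg_left _ (ww_nonneg K)
    have h2 := class_sum (S.filter (fun l => Nat.log l Z = K)) Z K (by omega) hZ (by
      intro l hl
      rw [mem_filter] at hl
      exact ⟨(hS l hl.1).1, hl.2⟩)
    refine h2.trans ?_
    have hK0 : (0 : ℝ) < K := by exact_mod_cast (by omega : 0 < K)
    have h3 : 2 * ((K : ℝ) + 1) / log Z ≤ 1 / 10000 := by
      rw [div_le_iff₀ hL0]
      have : (K : ℝ) ≤ 14 := by exact_mod_cast hK.2
      linarith
    have h4 : 0 ≤ 1 / (K : ℝ) + 1 / 10000 := by positivity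
    calc log 4 * (1 / (K : ℝ) + 2 * (K + 1) / log Z) ≤ log 4 * (1 / K + 1 / 10000) :=
          mul_le_mul_of_nonneg_left (by linarith) hlog4
      _ ≤ _ := mul_le_mul_of_nonneg_right log4_le h4
  have h2 : ∑ K ∈ Ioc 14 (14 + Z), ww K * ∑ l ∈ S with Nat.log l Z = K, 1 / (l : ℝ) ≤
      137 / 100000 := by
    have h3 : ∀ K ∈ Ioc 14 (14 + Z), ww K * ∑ l ∈ S with Nat.log l Z = K, 1 / (l : ℝ) ≤
        ww K * (13863 / 10000 * 3) := by
      intro K hK
      rw [mem_Ioc] at hK
      apply mul_le_mul_of_nonneg_left _ (ww_nonneg K)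
      rcases (S.filter (fun l => Nat.log l Z = K)).eq_empty_or_nonempty with h0 | ⟨l, hl⟩
      · rw [h0, Finset.sum_empty]; norm_num
      · have h2 := class_sum (S.filter (fun l => Nat.log l Z = K)) Z K (by omega) hZ (by
          intro l hl
          rw [mem_filter] at hl
          exact ⟨(hS l hl.1).1, hl.2⟩)
        refine h2.trans ?_
        rw [mem_filter] at hl
        obtain ⟨hl1, hl2⟩ := hl
        obtain ⟨g1, g2, g3⟩ := hS l hl1
        have hKL : (K : ℝ) ≤ log Z := by
          have h4 : l ^ K ≤ Z := by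
            rw [← hl2]; exact Nat.pow_log_le_self l (by omega)
          have h5 : (l : ℝ) ^ K ≤ Z := by exact_mod_cast h4
          have hlr : (1000 : ℝ) < l := by exact_mod_cast g2
          have h6 : Real.exp 1 ≤ l := by
            have := Real.exp_one_lt_d9
            linarith
          have h7 : Real.exp K ≤ Z := by
            calc Real.exp K = (Real.exp 1) ^ K := by rw [← Real.exp_nat_mul]; simp
              _ ≤ (l : ℝ) ^ K := pow_le_pow_left₀ (Real.exp_pos _).le h6 _
              _ ≤ Z := h5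
          rw [Real.le_log_iff_exp_le (by exact_mod_cast (by omega : 0 < Z))]
          exact h7
        have hK0 : (14 : ℝ) < K := by exact_mod_cast hK.1
        have h5 : 2 * ((K : ℝ) + 1) / log Z ≤ 29 / 10 := by
          rw [div_le_iff₀ hL0]
          linarith
        have h6 : 1 / (K : ℝ) ≤ 1 / 10 := by
          apply one_div_le_one_div_of_le (by norm_num)
          linarith
        calc log 4 * (1 / (K : ℝ) + 2 * (K + 1) / log Z) ≤ log 4 * 3 :=
              mul_le_mul_of_nonneg_left (by linarith) hlog4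
          _ ≤ _ := mul_le_mul_of_nonneg_right log4_le (by norm_num)
    refine (Finset.sum_le_sum h3).trans ?_
    rw [← Finset.sum_mul]
    have h4 := tail_sum Z
    have h5 : (0 : ℝ) ≤ 2 * (51 / 100) ^ (14 + Z) * (100 / 49) := by positivity
    have h6 : ∑ K ∈ Ioc 14 (14 + Z), ww K ≤ 2 * (51 / 100 : ℝ) ^ 14 * (100 / 49) := by linarith
    calc (∑ K ∈ Ioc 14 (14 + Z), ww K) * (13863 / 10000 * 3) ≤
          (2 * (51 / 100 : ℝ) ^ 14 * (100 / 49)) * (13863 / 10000 * 3) :=
          mul_le_mul_of_nonneg_right h6 (by norm_num)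
      _ ≤ _ := by norm_num
  linarith

/-- **The bad values for one root.** -/
theorem root_sum : ∃ A l0 : ℕ, 0 < A ∧ ∀ (Y W : ℕ) (T : ℤ), T % 600 = 404 → l0 ≤ Y → 1000 ≤ Y →
    0 ≤ T → T ≤ 600 * W → 0 < W → (∀ l : ℕ, l.Prime → Y < l → ¬ l ∣ W) →
    ∃ B : ℝ, ∃ Z0 : ℕ, ∀ Z' : ℕ, Z0 ≤ Z' → B ≤ log (Z' : ℝ) → ∀ R ∈ roots, ∀ P : Finset ℕ,
    (∀ l ∈ P, l.Prime ∧ Y < l) →
    ∑ l ∈ P, (((range (A * Z')).filter (fun x : ℕ => PB R l (600 * W * x + T))).card : ℝ) ≤
      14736 / 100000 * ((A * Z' : ℕ) : ℝ) := by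
  obtain ⟨A, l0, hA, hab⟩ := cnt_ab
  refine ⟨A, l0, hA, ?_⟩
  intro Y W T hT hl0 hY hT0 hTW hW hYW
  set C : ℝ := log (39000 * W * A) with hC
  refine ⟨max 300000 (1386300 * (C + 4)) , max 2 (39000 * W), ?_⟩
  intro Z' hZ0 hB R hR P hP
  have hL1 : (300000 : ℝ) ≤ log (Z' : ℝ) := (le_max_left _ _).trans hB
  have hL2 : 1386300 * (C + 4) ≤ log (Z' : ℝ) := (le_max_right _ _).trans hB
  have hZ2 : 2 ≤ Z' := (le_max_left _ _).trans hZ0
  have hZ3 : 39000 * W ≤ Z' := (le_max_right _ _).trans hZ0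
  set L := log (Z' : ℝ) with hL
  have hL0 : 0 < L := by linarith
  set Z := A * Z' with hZ
  have hZZ' : Z' ≤ Z := Nat.le_mul_of_pos_left _ hA
  have hZr : (0 : ℝ) < ((Z : ℕ) : ℝ) := by exact_mod_cast (by omega : 0 < Z)
  have hlog4 : 0 ≤ log (4 : ℝ) := log_nonneg (by norm_num)
  -- the cofactor bound
  have hdiv : ∀ l : ℕ, 0 < l → ((Z / l + 1 : ℕ) : ℝ) ≤ (Z : ℝ) * (1 / l) + 1 := by
    intro l hl
    have e1 : ((Z / l : ℕ) : ℝ) ≤ (Z : ℝ) / (l : ℝ) := Nat.cast_div_le
    push_cast
    rw [mul_one_div]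
    linarith
  rw [← Finset.sum_filter_add_sum_filter_not P (fun l => 2 ≤ Nat.log l Z')]
  -- first part
  have h1 : ∑ l ∈ P with 2 ≤ Nat.log l Z',
      (((range Z).filter (fun x : ℕ => PB R l (600 * W * x + T))).card : ℝ) ≤
      1001 / 1000 * Z * (14521 / 100000) := by
    have h2 : ∀ l ∈ P.filter (fun l => 2 ≤ Nat.log l Z'),
        (((range Z).filter (fun x : ℕ => PB R l (600 * W * x + T))).card : ℝ) ≤
        1001 / 1000 * Z * (ww (Nat.log l Z') * (1 / (l : ℝ))) := by
      intro l hl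
      rw [mem_filter] at hl
      obtain ⟨hlP, hK⟩ := hl
      obtain ⟨hlp, hYl⟩ := hP l hlP
      have h3 := hab W T hT R hR l hlp (by omega) (hYW l hlp hYl) (by omega) Z' hK
      rw [← hZ] at h3
      refine h3.trans ?_
      have h4 := hdiv l hlp.pos
      have hll : 1000 * l ≤ Z := by
        have e1 : l ^ Nat.log l Z' ≤ Z' := Nat.pow_log_le_self l (by omega)
        have e2 : l ^ 2 ≤ l ^ Nat.log l Z' := Nat.pow_le_pow_right hlp.pos hK
        have e3 : 1000 * l ≤ l ^ 2 := by nlinarith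
        omega
      have hlr : (0 : ℝ) < l := by exact_mod_cast hlp.pos
      have h5 : (1 : ℝ) ≤ 1 / 1000 * (Z * (1 / (l : ℝ))) := by
        have : (1000 : ℝ) * l ≤ Z := by exact_mod_cast hll
        have e : (1 : ℝ) / 1000 * (Z * (1 / (l : ℝ))) = Z / (1000 * l) := by
          field_simp
        rw [e, le_div_iff₀ (by positivity)]
        linarith
      calc ww (Nat.log l Z') * ((Z / l + 1 : ℕ) : ℝ) ≤
            ww (Nat.log l Z') * (1001 / 1000 * (Z * (1 / (l : ℝ)))) :=
            mul_le_mul_of_nonneg_left (by linarith) (ww_nonneg _)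
        _ = _ := by ring
    refine (Finset.sum_le_sum h2).trans ?_
    rw [← Finset.mul_sum]
    apply mul_le_mul_of_nonneg_left _ (by positivity)
    apply small_classes _ Z' (by omega) hL1
    intro l hl
    rw [mem_filter] at hl
    obtain ⟨hlP, hK⟩ := hl
    obtain ⟨hlp, hYl⟩ := hP l hlP
    exact ⟨hlp, by omega, hK⟩
  -- second part
  have h2 : ∑ l ∈ P with ¬ 2 ≤ Nat.log l Z',
      (((range Z).filter (fun x : ℕ => PB R l (600 * W * x + T))).card : ℝ) ≤
      2 / 1000 * Z := by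
    rw [← Finset.sum_filter_add_sum_filter_not (P.filter (fun l => ¬ 2 ≤ Nat.log l Z'))
      (fun l => l ^ 2 < 39000 * W * A * Z')]
    have hzero : ∑ l ∈ (P.filter (fun l => ¬ 2 ≤ Nat.log l Z')) with ¬ l ^ 2 < 39000 * W * A * Z',
        (((range Z).filter (fun x : ℕ => PB R l (600 * W * x + T))).card : ℝ) = 0 := by
      apply Finset.sum_eq_zero
      intro l hl
      rw [mem_filter, mem_filter] at hl
      obtain ⟨⟨hlP, -⟩, hl2⟩ := hl
      push Not at hl2
      obtain ⟨hlp, hYl⟩ := hP l hlP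
      have : (range Z).filter (fun x : ℕ => PB R l (600 * W * x + T)) = ∅ := by
        rw [Finset.filter_eq_empty_iff]
        intro x hx
        rw [mem_range] at hx
        apply no_bad R hR l hlp (by omega) _ (tt_mod W x T hT)
        · have : 0 ≤ 600 * (W : ℤ) * x := by positivity
          omega
        · have e1 : (39000 * W * A * Z' : ℤ) ≤ (l : ℤ) ^ 2 := by exact_mod_cast hl2
          have e2 : (x : ℤ) + 1 ≤ A * Z' := by
            have : x + 1 ≤ A * Z' := by omega
            exact_mod_cast this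
          have e3 : 600 * (W : ℤ) * ((x : ℤ) + 1) ≤ 600 * W * (A * Z') :=
            mul_le_mul_of_nonneg_left e2 (by positivity)
          nlinarith
      rw [this, card_empty, Nat.cast_zero]
    rw [hzero, add_zero]
    set S := (P.filter (fun l => ¬ 2 ≤ Nat.log l Z')).filter (fun l => l ^ 2 < 39000 * W * A * Z')
      with hS
    have hWr : (0 : ℝ) < W := by exact_mod_cast hW
    have hAr : (0 : ℝ) < A := by exact_mod_cast hA
    have hZr' : (0 : ℝ) < Z' := by exact_mod_cast (by omega : 0 < Z')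
    have hC0 : 0 ≤ C := by
      rw [hC]
      apply Real.log_nonneg
      have e1 : (1 : ℝ) ≤ W := by exact_mod_cast hW
      have e2 : (1 : ℝ) ≤ A := by exact_mod_cast hA
      nlinarith
    have hsum := sum_inv_primes S (L / 2) ((C + L) / 2) (by positivity) (by linarith) (by
      intro l hl
      rw [hS, mem_filter, mem_filter] at hl
      obtain ⟨⟨hlP, hK⟩, hl2⟩ := hl
      obtain ⟨hlp, hYl⟩ := hP l hlP
      have hlr : (0 : ℝ) < l := by exact_mod_cast hlp.pos
      refine ⟨hlp, ?_, ?_⟩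
      · have e1 : Z' < l ^ 2 := by
          have e2 : Z' < l ^ (Nat.log l Z' + 1) := Nat.lt_pow_succ_log_self hlp.one_lt Z'
          exact e2.trans_le (Nat.pow_le_pow_right hlp.pos (by omega))
        have e2 : (Z' : ℝ) ≤ (l : ℝ) ^ 2 := by exact_mod_cast e1.le
        have e3 := Real.log_le_log hZr' e2
        rw [Real.log_pow] at e3
        push_cast at e3
        linarith
      · have e2 : (l : ℝ) ^ 2 ≤ 39000 * W * A * Z' := by exact_mod_cast hl2.le
        have e3 := Real.log_le_log (by positivity) e2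
        rw [Real.log_pow, Real.log_mul (by positivity) (by positivity), ← hC, ← hL] at e3
        push_cast at e3
        linarith)
    have hsum2 : ∑ l ∈ S, 1 / (l : ℝ) ≤ 1 / 1000 := by
      refine hsum.trans ?_
      rw [div_le_iff₀ (by positivity)]
      have e1 := mul_le_mul_of_nonneg_right log4_le (show 0 ≤ (C + L) / 2 - L / 2 + 2 by linarith)
      linarith
    have h3 : ∀ l ∈ S, (((range Z).filter (fun x : ℕ => PB R l (600 * W * x + T))).card : ℝ) ≤
        2 * Z * (1 / (l : ℝ)) := by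
      intro l hl
      rw [hS, mem_filter, mem_filter] at hl
      obtain ⟨⟨hlP, hK⟩, hl2⟩ := hl
      obtain ⟨hlp, hYl⟩ := hP l hlP
      have hcop : IsCoprime (l : ℤ) (600 * (W : ℤ)) := by
        apply IsCoprime.mul_right (cop600 l hlp (by omega))
        rw [Prime.coprime_iff_not_dvd (Nat.prime_iff_prime_int.mp hlp)]
        intro h
        exact hYW l hlp hYl (by exact_mod_cast h)
      have h4 := cnt_le W T R l hcop Z
      have h5 : (((range Z).filter (fun x : ℕ => PB R l (600 * W * x + T))).card : ℝ) ≤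
          ((Z / l + 1 : ℕ) : ℝ) := by exact_mod_cast h4
      have h6 := hdiv l hlp.pos
      have hlr : (0 : ℝ) < l := by exact_mod_cast hlp.pos
      have hlZ : l ≤ Z := by
        by_contra hcon
        push Not at hcon
        have e1 : Z * Z ≤ l ^ 2 := by nlinarith
        have e2 : 39000 * W * A * Z' ≤ Z * Z := by
          calc 39000 * W * A * Z' = (39000 * W) * (A * Z') := by ring
            _ ≤ Z * (A * Z') := Nat.mul_le_mul_right _ (by omega)
        omega
      have h7 : (1 : ℝ) ≤ Z * (1 / (l : ℝ)) := by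
        rw [mul_one_div, le_div_iff₀ hlr, one_mul]
        exact_mod_cast hlZ
      linarith
    refine (Finset.sum_le_sum h3).trans ?_
    rw [← Finset.mul_sum]
    nlinarith
  linarith

end Pool.Agent.H34.Rud
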