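import Mathlib
import Pool.Agent.H34.Rud.RootSum

set_option autoImplicit false

/-!
# Many good values
-/

namespace Pool.Agent.H34.Rud

open Finset Real

theorem sq_sum (Y W : ℕ) (T : ℤ) (hY : 1000 ≤ Y) (hT : T % 600 = 404) (hT0 : 0 ≤ T)
    (hTW : T ≤ 600 * W) (hW : 0 < W) (hYW : ∀ l : ℕ, l.Prime → Y < l → ¬ l ∣ W) (R : Root)
    (hR : R ∈ roots) (Z : ℕ) (hZ : 600000000 * W ≤ Z) (P : Finset ℕ)
    (hP : ∀ l ∈ P, l.Prime ∧ Y < l) :
    ∑ l ∈ P, (((range Z).filter (fun x : ℕ => (l : ℤ) ^ 2 ∣ 600 * W * x + T - R.ρ)).card : ℝ) ≤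
      3 / 1000 * (Z : ℝ) := by
  obtain ⟨-, -, -, -, -, hρ0, hρ⟩ := root_bd R hR
  rw [← Finset.sum_filter_add_sum_filter_not P (fun l => l ^ 2 ≤ 600 * W * Z)]
  have hzero : ∑ l ∈ P with ¬ l ^ 2 ≤ 600 * W * Z,
      (((range Z).filter (fun x : ℕ => (l : ℤ) ^ 2 ∣ 600 * W * x + T - R.ρ)).card : ℝ) = 0 := by
    apply Finset.sum_eq_zero
    intro l hl
    rw [mem_filter] at hl
    obtain ⟨hlP, hl2⟩ := hl
    have : (range Z).filter (fun x : ℕ => (l : ℤ) ^ 2 ∣ 600 * W * x + T - R.ρ) = ∅ := by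
      rw [Finset.filter_eq_empty_iff]
      intro x hx hd
      rw [mem_range] at hx
      have e0 : 0 ≤ 600 * (W : ℤ) * x := by positivity
      have e1 := Int.le_of_dvd (by omega) hd
      apply hl2
      have e2 : (x : ℤ) + 1 ≤ Z := by exact_mod_cast hx
      have e3 : 600 * (W : ℤ) * ((x : ℤ) + 1) ≤ 600 * W * Z :=
        mul_le_mul_of_nonneg_left e2 (by positivity)
      have e4 : (l : ℤ) ^ 2 ≤ 600 * W * Z := by nlinarith
      exact_mod_cast e4
    rw [this, card_empty, Nat.cast_zero]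
  rw [hzero, add_zero]
  set S := P.filter (fun l => l ^ 2 ≤ 600 * W * Z) with hS
  set V := Nat.sqrt (600 * W * Z) with hV
  have hSV : S ⊆ Ioo Y (V + 1) := by
    intro l hl
    rw [hS, mem_filter] at hl
    rw [mem_Ioo]
    refine ⟨(hP l hl.1).2, ?_⟩
    have := Nat.le_sqrt'.mpr hl.2
    omega
  have hVZ : 1000 * V ≤ Z := by
    have h1 : V * V ≤ 600 * W * Z := Nat.sqrt_le _
    by_contra hcon
    push Not at hcon
    have h2 : Z * Z < (1000 * V) * (1000 * V) := Nat.mul_self_lt_mul_self hcon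
    have h3 : (600000000 * W) * Z ≤ Z * Z := Nat.mul_le_mul_right _ hZ
    nlinarith
  have hcnt : ∀ l ∈ S,
      (((range Z).filter (fun x : ℕ => (l : ℤ) ^ 2 ∣ 600 * W * x + T - R.ρ)).card : ℝ) ≤
        (Z : ℝ) * ((l : ℝ) ^ 2)⁻¹ + 1 := by
    intro l hl
    rw [hS, mem_filter] at hl
    obtain ⟨hlp, hYl⟩ := hP l hl.1
    have hcop : IsCoprime (l : ℤ) (600 * (W : ℤ)) := by
      apply IsCoprime.mul_right (cop600 l hlp (by omega))
      rw [Prime.coprime_iff_not_dvd (Nat.prime_iff_prime_int.mp hlp)]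
      intro h
      exact hYW l hlp hYl (by exact_mod_cast h)
    have hcop2 : IsCoprime ((l ^ 2 : ℕ) : ℤ) (600 * (W : ℤ)) := by
      push_cast
      exact hcop.pow_left
    have h4 : ((range Z).filter (fun x : ℕ => (l : ℤ) ^ 2 ∣ 600 * W * x + T - R.ρ)).card ≤
        Z / l ^ 2 + 1 := by
      apply card_class Z (l ^ 2) _ (Finset.filter_subset _ _)
      intro x hx y hy
      rw [mem_filter] at hx hy
      have h1 := hx.2
      have h2 := hy.2
      rw [add_sub_assoc] at h1 h2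
      exact same_class W (l ^ 2) x y _ hcop2 (by push_cast; exact h1) (by push_cast; exact h2)
    have e1 : ((Z / l ^ 2 : ℕ) : ℝ) ≤ (Z : ℝ) / ((l ^ 2 : ℕ) : ℝ) := Nat.cast_div_le
    have h5 : (((range Z).filter (fun x : ℕ => (l : ℤ) ^ 2 ∣ 600 * W * x + T - R.ρ)).card : ℝ) ≤
        ((Z / l ^ 2 + 1 : ℕ) : ℝ) := by exact_mod_cast h4
    push_cast at e1 h5
    rw [div_eq_mul_inv] at e1
    linarith
  refine (Finset.sum_le_sum hcnt).trans ?_
  rw [Finset.sum_add_distrib, ← Finset.mul_sum, Finset.sum_const, nsmul_eq_mul, mul_one]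
  have h1 : ∑ l ∈ S, ((l : ℝ) ^ 2)⁻¹ ≤ 2 / ((Y : ℝ) + 1) := by
    refine le_trans (Finset.sum_le_sum_of_subset_of_nonneg hSV ?_) (sum_Ioo_inv_sq_le Y (V + 1))
    intro i _ _
    positivity
  have h2 : 2 / ((Y : ℝ) + 1) ≤ 2 / 1000 := by
    apply div_le_div_of_nonneg_left (by norm_num) (by norm_num)
    have : (1000 : ℝ) ≤ Y := by exact_mod_cast hY
    linarith
  have h3 : (S.card : ℝ) ≤ 1 / 1000 * Z := by
    have e1 : S.card ≤ V := by
      refine (Finset.card_le_card hSV).trans ?_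
      rw [Nat.card_Ioo]
      omega
    have e2 : (S.card : ℝ) ≤ V := by exact_mod_cast e1
    have e3 : (1000 : ℝ) * V ≤ Z := by exact_mod_cast hVZ
    linarith
  have hZ0 : (0 : ℝ) ≤ Z := Nat.cast_nonneg Z
  nlinarith [mul_le_mul_of_nonneg_left (h1.trans h2) hZ0]

/-- The divisibility for `n`. -/
def Div (q n : ℕ) : Prop := n.factorial * (n + q).factorial ∣ (2 * n - 4).factorial

instance (q n : ℕ) : Decidable (Div q n) := by unfold Div; infer_instance

theorem le_na (a : ℕ) : a ≤ na a := by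
  unfold na
  have h2 : 0 < (300 * a + 197) * (8 * a + 5) := by positivity
  calc a ≤ 150 * a + 101 := by omega
    _ ≤ (150 * a + 101) * ((300 * a + 197) * (8 * a + 5)) := Nat.le_mul_of_pos_right _ h2
    _ = (150 * a + 101) * (300 * a + 197) * (8 * a + 5) := by ring

/-- The parameter `a` at `x`. -/
def aa (q W x : ℕ) : ℕ := W * (x + 1) - (q + 2)

theorem many (q : ℕ) : ∃ W A : ℕ, q + 3 ≤ W ∧ 0 < A ∧ ∃ (B : ℝ) (Z0 : ℕ), ∀ Z' : ℕ, Z0 ≤ Z' →
    B ≤ log (Z' : ℝ) → 1 / 20 * ((A * Z' : ℕ) : ℝ) ≤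
      (((range (A * Z')).filter (fun x => Div q (na (aa q W x)))).card : ℝ) := by
  obtain ⟨A, l0, hA, hroot⟩ := root_sum
  set Y := max l0 (max 1000 (2 * q + 8)) with hY
  have hY1 : l0 ≤ Y := le_max_left _ _
  have hY2 : 1000 ≤ Y := (le_max_left _ _).trans (le_max_right _ _)
  have hY3 : 2 * q + 8 ≤ Y := (le_max_right _ _).trans (le_max_right _ _)
  set E := (2 * mm q + 2 * q + 8) * (q + 8) with hE
  set W := Y.factorial ^ E with hW
  have hWE : E < W := by
    have h1 : 2 ≤ Y.factorial := le_trans (by omega) (Nat.self_le_factorial Y)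
    exact lt_of_lt_of_le Nat.lt_two_pow_self (Nat.pow_le_pow_left h1 E)
  have hEq : mm q + q + 8 ≤ E := by
    rw [hE]; nlinarith
  have hW0 : 0 < W := by omega
  have hYW : ∀ l : ℕ, l.Prime → Y < l → ¬ l ∣ W := by
    intro l hl hYl hd
    have := hl.dvd_of_dvd_pow hd
    rw [Nat.Prime.dvd_factorial hl] at this
    omega
  set T : ℤ := 600 * ((W : ℤ) - (q + 2)) + 404 with hT
  have hTm : T % 600 = 404 := by omega
  have hT0 : 0 ≤ T := by
    have : (q : ℤ) + 2 ≤ W := by exact_mod_cast (by omega : q + 2 ≤ W)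
    rw [hT]; linarith
  have hTW : T ≤ 600 * W := by
    have : (0 : ℤ) ≤ q := Int.natCast_nonneg q
    rw [hT]; linarith
  obtain ⟨B, Z0, hmain⟩ := hroot Y W T hTm hY1 hY2 hT0 hTW hW0 hYW
  refine ⟨W, A, by omega, hA, B, max Z0 (600000000 * W), ?_⟩
  intro Z' hZ' hB
  have hZ0 : Z0 ≤ Z' := (le_max_left _ _).trans hZ'
  have hZ1 : 600000000 * W ≤ Z' := (le_max_right _ _).trans hZ'
  set Z := A * Z' with hZ
  have hZZ : 600000000 * W ≤ Z := hZ1.trans (Nat.le_mul_of_pos_left _ hA)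
  set P := (Ioc Y (600 * W * Z)).filter Nat.Prime with hP
  have hPm : ∀ l ∈ P, l.Prime ∧ Y < l := by
    intro l hl
    rw [hP, mem_filter, mem_Ioc] at hl
    exact ⟨hl.2, hl.1.1⟩
  have hax : ∀ x, aa q W x + (q + 2) = W * (x + 1) := by
    intro x
    unfold aa
    have : W * 1 ≤ W * (x + 1) := Nat.mul_le_mul_left _ (by omega)
    omega
  have htx : ∀ x : ℕ, 600 * ((aa q W x : ℕ) : ℤ) + 404 = 600 * W * x + T := by
    intro x
    have h1 : ((aa q W x + (q + 2) : ℕ) : ℤ) = ((W * (x + 1) : ℕ) : ℤ) := by rw [hax]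
    push_cast at h1
    rw [hT]
    linear_combination 600 * h1
  classical
  -- the bad values
  have hbad : (range Z).filter (fun x => ¬ Div q (na (aa q W x))) ⊆
      (roots.toFinset ×ˢ P).biUnion (fun Rl =>
        ((range Z).filter (fun x : ℕ => PB Rl.1 Rl.2 (600 * W * x + T))) ∪
        ((range Z).filter (fun x : ℕ => (Rl.2 : ℤ) ^ 2 ∣ 600 * W * x + T - Rl.1.ρ))) := by
    intro x hx
    rw [mem_filter] at hx
    obtain ⟨hxZ, hx⟩ := hx
    by_contra hcon
    apply hx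
    have hxr : x < Z := mem_range.mp hxZ
    have hbd : ∀ l : ℕ, l.Prime → Y < l → ∀ R ∈ roots, (l : ℤ) ∣ 600 * W * x + T - R.ρ → l ∈ P := by
      intro l hl hYl R hR hd
      obtain ⟨-, -, -, -, -, hρ0, hρ⟩ := root_bd R hR
      rw [hP, mem_filter, mem_Ioc]
      refine ⟨⟨hYl, ?_⟩, hl⟩
      have e0 : 0 ≤ 600 * (W : ℤ) * x := by positivity
      have e1 := Int.le_of_dvd (by omega) hd
      have e2 : (x : ℤ) + 1 ≤ Z := by exact_mod_cast hxr
      have e3 : 600 * (W : ℤ) * ((x : ℤ) + 1) ≤ 600 * W * Z :=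
        mul_le_mul_of_nonneg_left e2 (by positivity)
      have e4 : (l : ℤ) ≤ 600 * W * Z := by nlinarith
      exact_mod_cast e4
    refine good_dvd q Y E W x (aa q W x) (by omega) hY3 le_rfl hW (hax x) ?_ ?_ ?_
    · intro l hl hYl R hR hPB
      rw [htx] at hPB
      apply hcon
      rw [mem_biUnion]
      refine ⟨(R, l), ?_, ?_⟩
      · rw [mem_product]
        exact ⟨List.mem_toFinset.mpr hR, hbd l hl hYl R hR hPB.1⟩
      · rw [mem_union]
        left
        rw [mem_filter]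
        exact ⟨hxZ, hPB⟩
    · intro l hl hYl R hR hd
      rw [htx] at hd
      apply hcon
      rw [mem_biUnion]
      refine ⟨(R, l), ?_, ?_⟩
      · rw [mem_product]
        exact ⟨List.mem_toFinset.mpr hR,
          hbd l hl hYl R hR (dvd_trans (dvd_pow_self _ two_ne_zero) hd)⟩
      · rw [mem_union]
        right
        rw [mem_filter]
        exact ⟨hxZ, hd⟩
    · have h1 := hax x
      have h2 : W * 1 ≤ W * (x + 1) := Nat.mul_le_mul_left _ (by omega)
      have h3 : mm q ≤ aa q W x := by omega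
      exact h3.trans (le_na _)
  have hcard : (((range Z).filter (fun x => ¬ Div q (na (aa q W x)))).card : ℝ) ≤
      19 / 20 * (Z : ℝ) := by
    have h1 : (((range Z).filter (fun x => ¬ Div q (na (aa q W x)))).card : ℝ) ≤
        ∑ Rl ∈ roots.toFinset ×ˢ P,
          ((((range Z).filter (fun x : ℕ => PB Rl.1 Rl.2 (600 * W * x + T))).card : ℝ) +
          (((range Z).filter (fun x : ℕ => (Rl.2 : ℤ) ^ 2 ∣ 600 * W * x + T - Rl.1.ρ)).card : ℝ)) := by
      refine le_trans (Nat.cast_le.mpr ((Finset.card_le_card hbad).trans Finset.card_biUnion_le)) ?_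
      rw [Nat.cast_sum]
      refine Finset.sum_le_sum fun Rl _ => ?_
      exact_mod_cast Finset.card_union_le _ _
    refine h1.trans ?_
    rw [Finset.sum_product]
    have h2 : ∀ R ∈ roots.toFinset, ∑ l ∈ P,
        ((((range Z).filter (fun x : ℕ => PB R l (600 * W * x + T))).card : ℝ) +
          (((range Z).filter (fun x : ℕ => (l : ℤ) ^ 2 ∣ 600 * W * x + T - R.ρ)).card : ℝ)) ≤
          15036 / 100000 * (Z : ℝ) := by
      intro R hR
      rw [List.mem_toFinset] at hR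
      rw [Finset.sum_add_distrib]
      have h3 := hmain Z' hZ0 hB R hR P hPm
      rw [← hZ] at h3
      have h4 := sq_sum Y W T hY2 hTm hT0 hTW hW0 hYW R hR Z hZZ P hPm
      linarith
    refine (Finset.sum_le_card_nsmul _ _ _ h2).trans ?_
    have h3 : roots.toFinset.card ≤ 6 := (List.toFinset_card_le _).trans (by simp [roots])
    have h4 : (roots.toFinset.card : ℝ) ≤ 6 := by exact_mod_cast h3
    rw [nsmul_eq_mul]
    have hZr : (0 : ℝ) ≤ Z := Nat.cast_nonneg Z
    have h5 := mul_le_mul_of_nonneg_right h4 (show 0 ≤ 15036 / 100000 * (Z : ℝ) by positivity)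
    linarith
  have hsum : (((range Z).filter (fun x => Div q (na (aa q W x)))).card : ℝ) +
      (((range Z).filter (fun x => ¬ Div q (na (aa q W x)))).card : ℝ) = Z := by
    have := Finset.card_filter_add_card_filter_not (s := range Z) (fun x => Div q (na (aa q W x)))
    rw [card_range] at this
    exact_mod_cast this
  linarith

end Pool.Agent.H34.Rud
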